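import Mathlib

/-!
Discretely Lindelöf spaces (MP_7165d8_gt).
-/

namespace Pool.Agent.Lib.MP_7165d8_gt

/-- A space `Z` is discretely Lindelöf if the closure of every subset of `Z` that is discrete in
its subspace topology is Lindelöf. -/
def DiscretelyLindelof (Z : Type*) [TopologicalSpace Z] : Prop :=
  ∀ D : Set Z, DiscreteTopology D → IsLindelof (closure D)

end Pool.Agent.Lib.MP_7165d8_gt
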