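import Mathlib

/-!
An unbounded increasing sequence in the product of the cardinals `ω_{n+1}` modulo finite sets.
-/

open Cardinal Ordinal Set Filter

namespace Pool.Agent.Lib.MP_7165d8_gt

/-- The well-ordered set `ω_{n+1}`. -/
abbrev I (n : ℕ) : Type := (Cardinal.aleph ((n : Ordinal) + 1)).ord.ToType

lemma mk_I (n : ℕ) : #(I n) = Cardinal.aleph ((n : Ordinal) + 1) := mk_ord_toType _

lemma I_bdd {n : ℕ} {S : Set (I n)} (hS : #S ≤ Cardinal.aleph n) : ∃ b, ∀ a ∈ S, a < b := by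
  by_contra hcon
  push Not at hcon
  have h1 : Order.cof (I n) ≤ #S := Order.cof_le hcon
  rw [Ordinal.cof_toType, (isRegular_aleph_add_one _).cof_ord] at h1
  exact absurd (h1.trans hS) (not_le.2 (aleph_lt_aleph.2 (lt_add_one _)))

lemma I_bdd_countable {n : ℕ} {S : Set (I n)} (hS : S.Countable) : ∃ b, ∀ a ∈ S, a < b :=
  I_bdd ((le_aleph0_iff_set_countable.2 hS).trans (aleph0_le_aleph _))

instance (n : ℕ) : Nonempty (I n) := by
  obtain ⟨b, -⟩ := I_bdd_countable (n := n) (S := ∅) countable_empty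
  exact ⟨b⟩

/-- The product of the `ω_{n+1}`. -/
abbrev PI : Type := ∀ n, I n

/-- The disjoint union of the `ω_{n+1}`, a set of cardinality `ℵ_ω`. -/
abbrev KI : Type := Σ n, I n

/-- Boundedness modulo finite sets. -/
def Bdd (S : Set PI) : Prop := ∃ g : PI, ∀ h ∈ S, ∀ᶠ n in atTop, h n ≤ g n

lemma mk_lt_part (n : ℕ) : #{x : KI // x.1 < n} ≤ Cardinal.aleph n := by
  have e : {x : KI // x.1 < n} ≃ Σ i : Fin n, I i :=
    { toFun := fun x => ⟨⟨x.1.1, x.2⟩, x.1.2⟩
      invFun := fun y => ⟨⟨y.1, y.2⟩, y.1.2⟩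
      left_inv := fun x => rfl
      right_inv := fun y => rfl }
  rw [Cardinal.mk_congr e, mk_sigma]
  calc Cardinal.sum (fun i : Fin n => #(I i)) ≤ Cardinal.sum (fun _ : Fin n => Cardinal.aleph n) := by
        apply sum_le_sum
        intro i
        rw [mk_I]
        apply aleph_le_aleph.2
        have : ((i : ℕ) + 1 : ℕ) ≤ n := i.2
        exact_mod_cast this
    _ = #(Fin n) * Cardinal.aleph n := by rw [Cardinal.sum_const']
    _ ≤ Cardinal.aleph n := by
        apply Cardinal.mul_le_of_le (aleph0_le_aleph _) _ le_rfl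
        exact (Cardinal.mk_le_aleph0).trans (aleph0_le_aleph _)

lemma bdd_of_card_le {S : Set PI} (hS : #S ≤ #KI) : Bdd S := by
  obtain ⟨e⟩ : Nonempty (S ↪ KI) := hS
  have hb : ∀ n, ∃ b : I n, ∀ a ∈ {a | ∃ s : S, (e s).1 < n ∧ s.1 n = a}, a < b := by
    intro n
    apply I_bdd
    refine le_trans ?_ (mk_lt_part n)
    let F : {s : S // (e s).1 < n} → {a | ∃ s : S, (e s).1 < n ∧ s.1 n = a} :=
      fun s => ⟨s.1.1 n, s.1, s.2, rfl⟩
    have hF : Function.Surjective F := by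
      rintro ⟨a, s, hs, rfl⟩
      exact ⟨⟨s, hs⟩, rfl⟩
    refine (mk_le_of_surjective hF).trans ?_
    exact mk_le_of_injective (f := fun s : {s : S // (e s).1 < n} =>
      (⟨e s.1, s.2⟩ : {x : KI // x.1 < n})) fun s t h => by
        have := congrArg Subtype.val h
        exact Subtype.ext (e.injective this)
  choose g hg using hb
  refine ⟨g, fun h hh => ?_⟩
  filter_upwards [eventually_gt_atTop (e ⟨h, hh⟩).1] with n hn
  exact (hg n (h n) ⟨⟨h, hh⟩, hn, rfl⟩).le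

lemma not_bdd_univ : ¬ Bdd univ := by
  rintro ⟨g, hg⟩
  have : ∀ n, ∃ b : I n, ∀ a ∈ ({g n} : Set (I n)), a < b := fun n =>
    I_bdd_countable (countable_singleton _)
  choose b hb using this
  obtain ⟨n, hn⟩ := (hg b (mem_univ _)).exists
  exact absurd hn (not_le.2 (hb n (g n) rfl))

/-- There is an increasing unbounded family in the product modulo finite sets, indexed by a
well-order in which sets of size at most `ℵ_ω` are bounded. -/
theorem exists_scale : ∃ (Λ : Type) (_ : LinearOrder Λ) (_ : WellFoundedLT Λ) (f : Λ → PI),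
    (∀ η ξ, η ≤ ξ → ∀ᶠ n in atTop, f η n ≤ f ξ n) ∧
    (∀ g : PI, ∃ ξ, ∃ᶠ n in atTop, g n < f ξ n) ∧
    (∀ A : Set Λ, #A ≤ #KI → ∃ ξ, ∀ a ∈ A, a < ξ) ∧ #Λ ≤ #PI := by
  classical
  let 𝒰 : Set Cardinal := {c | ∃ S : Set PI, #S = c ∧ ¬ Bdd S}
  have hne : 𝒰.Nonempty := ⟨_, univ, rfl, not_bdd_univ⟩
  set c : Cardinal := sInf 𝒰 with hc
  obtain ⟨S, hS, hSb⟩ : c ∈ 𝒰 := csInf_mem hne
  have hmin : ∀ S' : Set PI, #S' < c → Bdd S' := by
    intro S' hS'
    by_contra hb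
    have hmem : #S' ∈ 𝒰 := ⟨S', rfl, hb⟩
    exact absurd (csInf_le' hmem) (not_le.2 hS')
  have hKc : #KI < c := by
    by_contra hcon
    exact hSb (bdd_of_card_le (hS.le.trans (not_lt.1 hcon)))
  have hinf : ℵ₀ ≤ c := by
    refine le_trans ?_ hKc.le
    rw [mk_sigma]
    refine le_trans ?_ (le_sum _ 0)
    rw [mk_I]
    exact aleph0_le_aleph _
  obtain ⟨e⟩ : Nonempty (c.ord.ToType ≃ S) := by
    apply Cardinal.eq.1
    rw [mk_ord_toType, hS]
  let bd : Set PI → PI := fun T => if h : Bdd T then h.choose else Classical.arbitrary PI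
  have hbd : ∀ T, Bdd T → ∀ h ∈ T, ∀ᶠ n in atTop, h n ≤ bd T n := by
    intro T hT
    have : bd T = hT.choose := dif_pos hT
    rw [this]
    exact hT.choose_spec
  let F : ∀ ξ : c.ord.ToType, (∀ η : c.ord.ToType, η < ξ → PI) → PI := fun ξ ih =>
    bd (range (fun η : Iio ξ => ih η.1 η.2) ∪ {(e ξ).1})
  let f : c.ord.ToType → PI := (wellFounded_lt (α := c.ord.ToType)).fix F
  have hf : ∀ ξ, f ξ = bd (range (fun η : Iio ξ => f η.1) ∪ {(e ξ).1}) := fun ξ =>
    (wellFounded_lt (α := c.ord.ToType)).fix_eq F ξ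
  have hBdd : ∀ ξ, Bdd (range (fun η : Iio ξ => f η.1) ∪ {(e ξ).1}) := by
    intro ξ
    apply hmin
    refine (mk_union_le _ _).trans_lt ?_
    apply add_lt_of_lt hinf
    · refine mk_range_le.trans_lt ?_
      have := mk_Iio_lt ξ (by rw [mk_ord_toType, type_toType])
      rwa [mk_ord_toType] at this
    · rw [mk_singleton]
      exact one_lt_aleph0.trans_le hinf
  have hlt : ∀ η ξ, η < ξ → ∀ᶠ n in atTop, f η n ≤ f ξ n := by
    intro η ξ h
    rw [hf ξ]
    exact hbd _ (hBdd ξ) _ (Or.inl ⟨⟨η, h⟩, rfl⟩)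
  have he : ∀ ξ, ∀ᶠ n in atTop, (e ξ).1 n ≤ f ξ n := by
    intro ξ
    rw [hf ξ]
    exact hbd _ (hBdd ξ) _ (Or.inr rfl)
  have hle : ∀ η ξ, η ≤ ξ → ∀ᶠ n in atTop, f η n ≤ f ξ n := by
    intro η ξ h
    rcases h.eq_or_lt with rfl | h
    · exact Eventually.of_forall fun n => le_rfl
    · exact hlt η ξ h
  have hunb : ∀ g : PI, ¬ ∀ ξ, ∀ᶠ n in atTop, f ξ n ≤ g n := by
    intro g hg
    apply hSb
    refine ⟨g, fun h hh => ?_⟩
    have h1 := he (e.symm ⟨h, hh⟩)
    rw [e.apply_symm_apply] at h1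
    filter_upwards [h1, hg (e.symm ⟨h, hh⟩)] with n hn hn'
    exact hn.trans hn'
  refine ⟨c.ord.ToType, inferInstance, inferInstance, f, hle, ?_, ?_, ?_⟩
  · intro g
    have := hunb g
    push Not at this
    obtain ⟨ξ, hξ⟩ := this
    exact ⟨ξ, hξ⟩
  · intro A hA
    by_contra hcon
    push Not at hcon
    obtain ⟨g, hg⟩ := bdd_of_card_le (S := f '' A) (mk_image_le.trans hA)
    apply hunb g
    intro ξ
    obtain ⟨a, ha, hξa⟩ := hcon ξ
    filter_upwards [hle ξ a hξa, hg (f a) (mem_image_of_mem f ha)] with n hn hn'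
    exact hn.trans hn'
  · rw [mk_ord_toType, ← hS]
    exact mk_set_le S

end Pool.Agent.Lib.MP_7165d8_gt
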