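import Mathlib
import Pool.Agent.Lib.MP_7165d8_gt.Defs
import Pool.Agent.Lib.MP_7165d8_gt.Scale

/-!
The refined topology and its discrete sets.
-/

open Cardinal Ordinal Set Filter Topology

namespace Pool.Agent.Lib.MP_7165d8_gt

/-- The set `ω_{n+1} + 1`. -/
abbrev J (n : ℕ) : Type := WithTop (I n)

/-- The set `T` with the refined topology. -/
structure Sp {T Λ : Type} (ρ : T → Λ) (x : T → ∀ i, J i) : Type where
  /-- the underlying point -/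
  pt : T

section topology

variable {T Λ : Type} [TopologicalSpace T] [LinearOrder Λ] {ρ : T → Λ} {x : T → ∀ i, J i}

omit [TopologicalSpace T] [LinearOrder Λ] in
lemma Sp.ext' {p q : Sp ρ x} (h : p.pt = q.pt) : p = q := by
  cases p; cases q; simp only at h; rw [h]

instance : TopologicalSpace (Sp ρ x) where
  IsOpen U := ∀ p ∈ U, ∃ G ∈ 𝓝 p.pt, ∃ η : WithBot Λ, η < ρ p.pt ∧ ∃ m : ℕ,
    ∀ q : Sp ρ x, q.pt ∈ G → η < ρ q.pt → (∀ i < m, x q.pt i ≤ x p.pt i) → q ∈ U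
  isOpen_univ := fun p _ => ⟨univ, univ_mem, ⊥, WithBot.bot_lt_coe _, 0, fun _ _ _ _ => mem_univ _⟩
  isOpen_inter := by
    intro U V hU hV p hp
    obtain ⟨G, hG, η, hη, m, h⟩ := hU p hp.1
    obtain ⟨G', hG', η', hη', m', h'⟩ := hV p hp.2
    refine ⟨G ∩ G', inter_mem hG hG', max η η', max_lt hη hη', max m m', fun q hq hηq hx => ?_⟩
    exact ⟨h q hq.1 ((le_max_left _ _).trans_lt hηq) fun i hi => hx i (hi.trans_le (le_max_left _ _)),
      h' q hq.2 ((le_max_right _ _).trans_lt hηq) fun i hi => hx i (hi.trans_le (le_max_right _ _))⟩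
  isOpen_sUnion := by
    intro S hS p hp
    obtain ⟨U, hU, hpU⟩ := hp
    obtain ⟨G, hG, η, hη, m, h⟩ := hS U hU p hpU
    exact ⟨G, hG, η, hη, m, fun q h1 h2 h3 => ⟨U, hU, h q h1 h2 h3⟩⟩

lemma isOpen_iff' {U : Set (Sp ρ x)} : IsOpen U ↔ ∀ p ∈ U, ∃ G ∈ 𝓝 p.pt, ∃ η : WithBot Λ,
    η < ρ p.pt ∧ ∃ m : ℕ, ∀ q : Sp ρ x, q.pt ∈ G → η < ρ q.pt →
      (∀ i < m, x q.pt i ≤ x p.pt i) → q ∈ U := Iff.rfl

lemma continuous_pt : Continuous (Sp.pt : Sp ρ x → T) := by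
  rw [continuous_def]
  intro G hG
  rw [isOpen_iff']
  intro p hp
  exact ⟨G, hG.mem_nhds hp, ⊥, WithBot.bot_lt_coe _, 0, fun q hq _ _ => hq⟩

lemma isOpen_rank (η : Λ) : IsOpen {p : Sp ρ x | η < ρ p.pt} := by
  rw [isOpen_iff']
  intro p hp
  exact ⟨univ, univ_mem, η, WithBot.coe_lt_coe.2 hp, 0, fun q _ hq _ => WithBot.coe_lt_coe.1 hq⟩

lemma isOpen_x (n : ℕ) (α : J n) : IsOpen {p : Sp ρ x | x p.pt n ≤ α} := by
  rw [isOpen_iff']
  intro p hp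
  exact ⟨univ, univ_mem, ⊥, WithBot.bot_lt_coe _, n + 1,
    fun q _ _ hq => (hq n (Nat.lt_succ_self n)).trans hp⟩

lemma exists_box {W : Set (Sp ρ x × Sp ρ x)} (hW : IsOpen W) {p q : Sp ρ x} (hpq : (p, q) ∈ W) :
    ∃ G ∈ 𝓝 (p.pt, q.pt), ∃ η : WithBot Λ, η < ρ p.pt ∧ ∃ η' : WithBot Λ, η' < ρ q.pt ∧ ∃ m : ℕ,
      ∀ p' q' : Sp ρ x, (p'.pt, q'.pt) ∈ G → η < ρ p'.pt → η' < ρ q'.pt →
        (∀ i < m, x p'.pt i ≤ x p.pt i) → (∀ i < m, x q'.pt i ≤ x q.pt i) → (p', q') ∈ W := by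
  obtain ⟨U, V, hU, hV, hp, hq, hUV⟩ := isOpen_prod_iff.1 hW p q hpq
  obtain ⟨G, hG, η, hη, m, h⟩ := hU p hp
  obtain ⟨G', hG', η', hη', m', h'⟩ := hV q hq
  refine ⟨G ×ˢ G', prod_mem_nhds hG hG', η, hη, η', hη', max m m', ?_⟩
  intro p' q' h1 h2 h3 h4 h5
  exact hUV ⟨h p' h1.1 h2 fun i hi => h4 i (hi.trans_le (le_max_left _ _)),
    h' q' h1.2 h3 fun i hi => h5 i (hi.trans_le (le_max_right _ _))⟩

lemma t1_sp [T1Space T] : T1Space (Sp ρ x) := by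
  constructor
  intro p
  have : ({p} : Set (Sp ρ x)) = Sp.pt ⁻¹' {p.pt} := by
    ext q
    constructor
    · rintro rfl; rfl
    · intro h; exact Sp.ext' h
  rw [this]
  exact isClosed_singleton.preimage continuous_pt

lemma t2_sp [T2Space T] : T2Space (Sp ρ x) :=
  T2Space.of_injective_continuous (fun _ _ h => Sp.ext' h) continuous_pt

end topology

section small

variable {T Λ : Type} [LinearOrder Λ] (ρ : T → Λ)

/-- Sets of pairs of bounded rank. -/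
def Small (S : Set (T × T)) : Prop := ∃ ξ : Λ, ∀ z ∈ S, ρ z.1 ≤ ξ ∧ ρ z.2 ≤ ξ

variable {ρ}

lemma Small.mono {S S' : Set (T × T)} (h : Small ρ S) (hS : S' ⊆ S) : Small ρ S' := by
  obtain ⟨ξ, hξ⟩ := h
  exact ⟨ξ, fun z hz => hξ z (hS hz)⟩

lemma small_iUnion (hΛ : ∀ A : Set Λ, #A ≤ #KI → ∃ ξ, ∀ a ∈ A, a < ξ) {ι : Type} (hι : #ι ≤ #KI)
    {S : ι → Set (T × T)} (h : ∀ i, Small ρ (S i)) : Small ρ (⋃ i, S i) := by
  choose ξ hξ using h
  obtain ⟨ζ, hζ⟩ := hΛ (range ξ) (mk_range_le.trans hι)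
  refine ⟨ζ, fun z hz => ?_⟩
  obtain ⟨i, hi⟩ := mem_iUnion.1 hz
  have h1 := hζ (ξ i) ⟨i, rfl⟩
  exact ⟨(hξ i z hi).1.trans h1.le, (hξ i z hi).2.trans h1.le⟩

lemma aleph0_le_KI : ℵ₀ ≤ #KI := by
  rw [mk_sigma]
  refine le_trans ?_ (le_sum _ 0)
  rw [mk_I]
  exact aleph0_le_aleph _

lemma small_union {S S' : Set (T × T)} (h : Small ρ S) (h' : Small ρ S') : Small ρ (S ∪ S') := by
  obtain ⟨ξ, hξ⟩ := h
  obtain ⟨ξ', hξ'⟩ := h'
  refine ⟨max ξ ξ', fun z hz => ?_⟩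
  rcases hz with hz | hz
  · exact ⟨(hξ z hz).1.trans (le_max_left _ _), (hξ z hz).2.trans (le_max_left _ _)⟩
  · exact ⟨(hξ' z hz).1.trans (le_max_right _ _), (hξ' z hz).2.trans (le_max_right _ _)⟩

lemma small_biUnion (hΛ : ∀ A : Set Λ, #A ≤ #KI → ∃ ξ, ∀ a ∈ A, a < ξ) {ι : Type} {C : Set ι}
    (hC : C.Countable) {S : ι → Set (T × T)} (h : ∀ i ∈ C, Small ρ (S i)) :
    Small ρ (⋃ i ∈ C, S i) := by
  rw [biUnion_eq_iUnion]
  apply small_iUnion hΛ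
  · exact (le_aleph0_iff_set_countable.2 hC).trans aleph0_le_KI
  · exact fun i => h i i.2

/-- The list of the first `m` coordinates. -/
def lst (x : T → ∀ i, J i) (t : T) (m : ℕ) : List (Σ i, J i) :=
  (List.range m).map fun i => ⟨i, x t i⟩

lemma lst_eq {x : T → ∀ i, J i} {s t : T} {m : ℕ} (h : lst x s m = lst x t m) {i : ℕ}
    (hi : i < m) : x s i = x t i := by
  have h1 := List.map_inj_left.1 h i (List.mem_range.2 hi)
  simpa using h1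

lemma mk_J (n : ℕ) : #(J n) = #(I n) := by
  have h1 : #(J n) = #(I n) + 1 := mk_option
  rw [h1]
  apply Cardinal.add_one_eq
  rw [mk_I]
  exact aleph0_le_aleph _

lemma mk_code : #(ℕ × List (Σ i, J i) × List (Σ i, J i)) ≤ #KI := by
  have h1 : #(Σ i, J i) = #KI := by
    rw [mk_sigma, mk_sigma]
    congr 1
    funext i
    exact mk_J i
  have h2 : #(List (Σ i, J i)) ≤ #KI := by
    refine (mk_list_le_max _).trans ?_
    rw [h1]
    exact max_le aleph0_le_KI le_rfl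
  rw [mk_prod, mk_prod]
  simp only [Cardinal.lift_id, mk_nat, Cardinal.lift_aleph0]
  exact mul_le_of_le aleph0_le_KI aleph0_le_KI (mul_le_of_le aleph0_le_KI h2 h2)

end small

section isolated

variable {T Λ : Type} [TopologicalSpace T] [LinearOrder Λ] [WellFoundedLT Λ]
  {ρ : T → Λ} {x : T → ∀ i, J i}

lemma exists_min_top (P : WithTop Λ → Prop) (h : P ⊤) :
    ∃ ζ, P ζ ∧ ∀ ζ' < ζ, ¬ P ζ' := by
  have hwf : WellFounded ((· < ·) : WithTop Λ → WithTop Λ → Prop) := wellFounded_lt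
  refine ⟨hwf.min {ζ | P ζ} ⟨⊤, h⟩, hwf.min_mem {ζ | P ζ} ⟨⊤, h⟩, fun ζ' h1 h2 => ?_⟩
  exact hwf.not_lt_min {ζ | P ζ} h2 h1

/-- A set of pairs that is discrete in the refined topology has bounded rank. -/
lemma small_of_isolated [HereditarilyLindelofSpace (T × T)]
    (hΛ : ∀ A : Set Λ, #A ≤ #KI → ∃ ξ, ∀ a ∈ A, a < ξ)
    (E : Set (T × T)) (W : T × T → Set (T × T)) (η η' : T × T → WithBot Λ) (m : T × T → ℕ)
    (hW : ∀ z ∈ E, W z ∈ 𝓝 z) (hη : ∀ z ∈ E, η z < ρ z.1) (hη' : ∀ z ∈ E, η' z < ρ z.2)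
    (hiso : ∀ z ∈ E, ∀ w ∈ E, w ∈ W z → η z < ρ w.1 → η' z < ρ w.2 →
      (∀ i < m z, x w.1 i ≤ x z.1 i) → (∀ i < m z, x w.2 i ≤ x z.2 i) → w = z) :
    Small ρ E := by
  classical
  by_contra hE
  let code : T × T → ℕ × List (Σ i, J i) × List (Σ i, J i) :=
    fun z => (m z, lst x z.1 (m z), lst x z.2 (m z))
  obtain ⟨c, hc⟩ : ∃ c, ¬ Small ρ {z ∈ E | code z = c} := by
    by_contra hcon
    push Not at hcon
    apply hE
    refine (small_iUnion hΛ mk_code hcon).mono fun z hz => ?_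
    exact mem_iUnion.2 ⟨code z, hz, rfl⟩
  set E₁ := {z ∈ E | code z = c} with hE₁
  have hcode : ∀ z ∈ E₁, ∀ w ∈ E₁, (∀ i < m z, x w.1 i ≤ x z.1 i) ∧
      (∀ i < m z, x w.2 i ≤ x z.2 i) := by
    intro z hz w hw
    have h1 : code w = code z := hw.2.trans hz.2.symm
    have h2 : m w = m z := congrArg Prod.fst h1
    have h3 : lst x w.1 (m w) = lst x z.1 (m z) := congrArg (fun a => a.2.1) h1
    have h4 : lst x w.2 (m w) = lst x z.2 (m z) := congrArg (fun a => a.2.2) h1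
    rw [h2] at h3 h4
    exact ⟨fun i hi => (lst_eq h3 hi).le, fun i hi => (lst_eq h4 hi).le⟩
  obtain ⟨ζ₁, hζ₁, hmin₁⟩ := exists_min_top
    (fun ζ => ¬ Small ρ {z ∈ E₁ | (ρ z.1 : WithTop Λ) ≤ ζ}) (by
      intro h
      exact hc (h.mono fun z hz => ⟨hz, le_top⟩))
  set E₂ := {z ∈ E₁ | (ρ z.1 : WithTop Λ) ≤ ζ₁} with hE₂
  obtain ⟨ζ₂, hζ₂, hmin₂⟩ := exists_min_top
    (fun ζ => ¬ Small ρ {z ∈ E₂ | (ρ z.2 : WithTop Λ) ≤ ζ}) (by
      intro h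
      exact hζ₁ (h.mono fun z hz => ⟨hz, le_top⟩))
  set E₃ := {z ∈ E₂ | (ρ z.2 : WithTop Λ) ≤ ζ₂} with hE₃
  -- some point of `E₃` has all neighbourhoods big
  obtain ⟨z, hz, hbig⟩ : ∃ z ∈ E₃, ¬ Small ρ (W z ∩ E₃) := by
    by_contra hcon
    push Not at hcon
    apply hζ₂
    have hWn : ∀ z ∈ E₃, W z ∈ 𝓝 z := fun z hz => hW z hz.1.1.1
    obtain ⟨C, hCc, hCE, hC⟩ := (HereditarilyLindelofSpace.isLindelof E₃).elim_nhds_subcover W hWn
    refine (small_biUnion hΛ hCc fun z hz => hcon z (hCE z hz)).mono fun w hw => ?_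
    obtain ⟨z, hz, hwz⟩ := mem_iUnion₂.1 (hC hw)
    exact mem_iUnion₂.2 ⟨z, hz, hwz, hw⟩
  apply hbig
  have hs1 : Small ρ {w ∈ E₃ | (ρ w.1 : WithBot Λ) ≤ η z} := by
    rcases h : η z with _ | e
    · exact ⟨ρ z.1, fun w hw => absurd hw.2 (not_le.2 (WithBot.bot_lt_coe _))⟩
    · have h1 : e < ρ z.1 := by
        have := hη z hz.1.1.1
        rw [h] at this
        exact WithBot.coe_lt_coe.1 this
      have h2 : (e : WithTop Λ) < ζ₁ := (WithTop.coe_lt_coe.2 h1).trans_le hz.1.2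
      have h3 := hmin₁ _ h2
      rw [not_not] at h3
      refine h3.mono fun w hw => ⟨hw.1.1.1, ?_⟩
      exact WithTop.coe_le_coe.2 (WithBot.coe_le_coe.1 hw.2)
  have hs2 : Small ρ {w ∈ E₃ | (ρ w.2 : WithBot Λ) ≤ η' z} := by
    rcases h : η' z with _ | e
    · exact ⟨ρ z.1, fun w hw => absurd hw.2 (not_le.2 (WithBot.bot_lt_coe _))⟩
    · have h1 : e < ρ z.2 := by
        have := hη' z hz.1.1.1
        rw [h] at this
        exact WithBot.coe_lt_coe.1 this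
      have h2 : (e : WithTop Λ) < ζ₂ := (WithTop.coe_lt_coe.2 h1).trans_le hz.2
      have h3 := hmin₂ _ h2
      rw [not_not] at h3
      refine h3.mono fun w hw => ⟨hw.1.1, ?_⟩
      exact WithTop.coe_le_coe.2 (WithBot.coe_le_coe.1 hw.2)
  have hs3 : Small ρ ({z} : Set (T × T)) := ⟨max (ρ z.1) (ρ z.2), by
    rintro w rfl
    exact ⟨le_max_left _ _, le_max_right _ _⟩⟩
  refine (small_union (small_union hs1 hs2) hs3).mono fun w hw => ?_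
  by_cases h1 : (ρ w.1 : WithBot Λ) ≤ η z
  · exact Or.inl (Or.inl ⟨hw.2, h1⟩)
  by_cases h2 : (ρ w.2 : WithBot Λ) ≤ η' z
  · exact Or.inl (Or.inr ⟨hw.2, h2⟩)
  refine Or.inr ?_
  have h3 := hcode z hz.1.1 w hw.2.1.1
  exact hiso z hz.1.1.1 w hw.2.1.1.1 hw.1 (not_le.1 h1) (not_le.1 h2) h3.1 h3.2

end isolated

end Pool.Agent.Lib.MP_7165d8_gt
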