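import Mathlib

/-!
A closed set of pairs of points of the Baire space that is not covered by the diagonal and
countably many horizontal and vertical lines contains `2^ω` pairs with distinct coordinates.
-/

open Cardinal Set Filter Topology

namespace Pool.Agent.Lib.MP_7165d8_gt

/-- The Baire space. -/
abbrev BB : Type := ℕ → ℕ

/-- A set of pairs is thin if it is covered by the diagonal and countably many horizontal and
vertical lines. -/
def Thin (S : Set (BB × BB)) : Prop :=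
  ∃ C : Set BB, C.Countable ∧ ∀ p q, p ≠ q → (p, q) ∈ S → p ∈ C ∨ q ∈ C

lemma Thin.mono {S S' : Set (BB × BB)} (h : Thin S) (hS : S' ⊆ S) : Thin S' := by
  obtain ⟨C, hC, h⟩ := h
  exact ⟨C, hC, fun p q hpq hmem => h p q hpq (hS hmem)⟩

lemma Thin.union {S S' : Set (BB × BB)} (h : Thin S) (h' : Thin S') : Thin (S ∪ S') := by
  obtain ⟨C, hC, h⟩ := h
  obtain ⟨C', hC', h'⟩ := h'
  refine ⟨C ∪ C', hC.union hC', fun p q hpq hmem => ?_⟩
  rcases hmem with hm | hm
  · exact (h p q hpq hm).imp Or.inl Or.inl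
  · exact (h' p q hpq hm).imp Or.inr Or.inr

lemma thin_biUnion {ι : Type} {D : Set ι} (hD : D.Countable) {S : ι → Set (BB × BB)}
    (h : ∀ i ∈ D, Thin (S i)) : Thin (⋃ i ∈ D, S i) := by
  choose! C hC hCS using h
  refine ⟨⋃ i ∈ D, C i, hD.biUnion hC, fun p q hpq hmem => ?_⟩
  obtain ⟨i, hi, hm⟩ := mem_iUnion₂.1 hmem
  exact (hCS i hi p q hpq hm).imp (fun h => mem_iUnion₂.2 ⟨i, hi, h⟩)
    (fun h => mem_iUnion₂.2 ⟨i, hi, h⟩)

/-- The kernel of a closed set of pairs. -/
def ker (H : Set (BB × BB)) : Set (BB × BB) :=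
  {z ∈ H | z.1 ≠ z.2 ∧ ∀ U ∈ 𝓝 z, ¬ Thin (U ∩ H)}

lemma thin_diff_ker (H : Set (BB × BB)) : Thin (H \ ker H) := by
  have h1 : Thin {z ∈ H | z.1 = z.2} := ⟨∅, countable_empty, fun p q hpq hm => absurd hm.2 hpq⟩
  let S : Set (BB × BB) := {z ∈ H | ∃ U ∈ 𝓝 z, Thin (U ∩ H)}
  have h2 : Thin S := by
    have hex : ∀ z ∈ S, ∃ U ∈ 𝓝 z, Thin (U ∩ H) := fun z hz => hz.2
    choose! U hU hUH using hex
    obtain ⟨D, hD, hDS, hcov⟩ := (HereditarilyLindelofSpace.isLindelof S).elim_nhds_subcover U hU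
    refine (thin_biUnion hD fun z hz => hUH z (hDS z hz)).mono fun z hz => ?_
    obtain ⟨w, hw, hzw⟩ := mem_iUnion₂.1 (hcov hz)
    exact mem_iUnion₂.2 ⟨w, hw, hzw, hz.1⟩
  refine (h1.union h2).mono fun z hz => ?_
  by_cases h : z.1 = z.2
  · exact Or.inl ⟨hz.1, h⟩
  · refine Or.inr ⟨hz.1, ?_⟩
    by_contra hcon
    push Not at hcon
    exact hz.2 ⟨hz.1, h, hcon⟩

lemma not_thin_ker {H : Set (BB × BB)} {z : BB × BB} (hz : z ∈ ker H) {U : Set (BB × BB)}
    (hU : U ∈ 𝓝 z) : ¬ Thin (U ∩ ker H) := by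
  intro h
  apply hz.2.2 U hU
  refine (h.union (thin_diff_ker H)).mono fun w hw => ?_
  by_cases hwk : w ∈ ker H
  exacts [Or.inl ⟨hw.1, hwk⟩, Or.inr ⟨hw.2, hwk⟩]

lemma ker_nonempty {H : Set (BB × BB)} (hH : ¬ Thin H) : (ker H).Nonempty := by
  by_contra hcon
  rw [not_nonempty_iff_eq_empty] at hcon
  have := thin_diff_ker H
  rw [hcon, Set.sdiff_empty] at this
  exact hH this

/-- Pairs agreeing with `z` below `n` form a neighbourhood of `z`. -/
lemma agree_nhds' (z : BB × BB) (n : ℕ) :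
    {w : BB × BB | ∀ i < n, w.1 i = z.1 i ∧ w.2 i = z.2 i} ∈ 𝓝 z := by
  have h1 : ∀ i, ∀ᶠ w : BB × BB in 𝓝 z, w.1 i = z.1 i ∧ w.2 i = z.2 i := by
    intro i
    have h2 : Tendsto (fun w : BB × BB => w.1 i) (𝓝 z) (𝓝 (z.1 i)) :=
      (((continuous_apply i).comp continuous_fst).tendsto z)
    have h3 : Tendsto (fun w : BB × BB => w.2 i) (𝓝 z) (𝓝 (z.2 i)) :=
      (((continuous_apply i).comp continuous_snd).tendsto z)
    rw [nhds_discrete ℕ, tendsto_pure] at h2 h3
    exact h2.and h3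
  have h4 : ∀ᶠ w : BB × BB in 𝓝 z, ∀ i ∈ Finset.range n, w.1 i = z.1 i ∧ w.2 i = z.2 i :=
    (Filter.eventually_all_finset _).2 fun i _ => h1 i
  filter_upwards [h4] with w hw i hi
  exact hw i (Finset.mem_range.2 hi)

/-- A node of the scheme. -/
structure Node (H : Set (BB × BB)) where
  /-- the pair -/
  z : BB × BB
  /-- the depth -/
  n : ℕ
  mem : z ∈ ker H

lemma exists_split {H : Set (BB × BB)} (s : Node H) : ∃ c : Bool → Node H,
    (∀ e, s.n < (c e).n) ∧ (∀ e, ∀ i < s.n, (c e).z.1 i = s.z.1 i ∧ (c e).z.2 i = s.z.2 i) ∧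
    (∃ i, i < (c false).n ∧ i < (c true).n ∧ (c false).z.1 i ≠ (c true).z.1 i) ∧
    (∃ i, i < (c false).n ∧ i < (c true).n ∧ (c false).z.2 i ≠ (c true).z.2 i) := by
  have h1 := not_thin_ker s.mem (agree_nhds' s.z s.n)
  obtain ⟨w, hw, hwk, hne1, hne2⟩ : ∃ w ∈ {w : BB × BB | ∀ i < s.n, w.1 i = s.z.1 i ∧
      w.2 i = s.z.2 i}, w ∈ ker H ∧ w.1 ≠ s.z.1 ∧ w.2 ≠ s.z.2 := by
    by_contra hcon
    push Not at hcon
    apply h1
    refine ⟨{s.z.1, s.z.2}, (Set.toFinite _).countable, fun p q _ hm => ?_⟩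
    by_cases hp : p = s.z.1
    · exact Or.inl (Or.inl hp)
    · exact Or.inr (Or.inr (hcon (p, q) hm.1 hm.2 hp))
  obtain ⟨i, hi⟩ := Function.ne_iff.1 hne1
  obtain ⟨j, hj⟩ := Function.ne_iff.1 hne2
  let N : ℕ := s.n + i + j + 1
  refine ⟨fun e => if e then ⟨w, N, hwk⟩ else ⟨s.z, N, s.mem⟩, ?_, ?_, ?_, ?_⟩
  · intro e
    cases e
    · change s.n < N
      omega
    · change s.n < N
      omega
  · intro e
    cases e
    · intro l _
      exact ⟨rfl, rfl⟩
    · intro l hl
      exact hw l hl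
  · refine ⟨i, ?_, ?_, ?_⟩
    · change i < N; omega
    · change i < N; omega
    · change s.z.1 i ≠ w.1 i
      exact hi.symm
  · refine ⟨j, ?_, ?_, ?_⟩
    · change j < N; omega
    · change j < N; omega
    · change s.z.2 j ≠ w.2 j
      exact hj.symm

/-- The two children of a node. -/
noncomputable def child {H : Set (BB × BB)} (s : Node H) : Bool → Node H := (exists_split s).choose

/-- The node at level `k` along a branch. -/
noncomputable def node {H : Set (BB × BB)} (s₀ : Node H) (x : ℕ → Bool) : ℕ → Node H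
  | 0 => s₀
  | k + 1 => child (node s₀ x k) (x k)

section

variable {H : Set (BB × BB)} (s₀ : Node H)

lemma node_lt (x : ℕ → Bool) (k : ℕ) : (node s₀ x k).n < (node s₀ x (k + 1)).n :=
  (exists_split (node s₀ x k)).choose_spec.1 (x k)

lemma le_node (x : ℕ → Bool) (k : ℕ) : k ≤ (node s₀ x k).n := by
  induction k with
  | zero => exact Nat.zero_le _
  | succ k ih => exact Nat.succ_le_of_lt (ih.trans_lt (node_lt s₀ x k))

lemma node_mono (x : ℕ → Bool) {k l : ℕ} (h : k ≤ l) : (node s₀ x k).n ≤ (node s₀ x l).n := by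
  induction l, h using Nat.le_induction with
  | base => exact le_rfl
  | succ l _ ih => exact ih.trans (node_lt s₀ x l).le

lemma node_agree (x : ℕ → Bool) {k l : ℕ} (h : k ≤ l) : ∀ i < (node s₀ x k).n,
    (node s₀ x l).z.1 i = (node s₀ x k).z.1 i ∧ (node s₀ x l).z.2 i = (node s₀ x k).z.2 i := by
  induction l, h using Nat.le_induction with
  | base => exact fun i _ => ⟨rfl, rfl⟩
  | succ l hl ih =>
    intro i hi
    have h1 := (exists_split (node s₀ x l)).choose_spec.2.1 (x l) i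
      (hi.trans_le (node_mono s₀ x hl))
    have h2 := ih i hi
    exact ⟨h1.1.trans h2.1, h1.2.trans h2.2⟩

/-- First coordinate of the limit pair. -/
noncomputable def lim₁ (x : ℕ → Bool) : BB := fun i => (node s₀ x (i + 1)).z.1 i

/-- Second coordinate of the limit pair. -/
noncomputable def lim₂ (x : ℕ → Bool) : BB := fun i => (node s₀ x (i + 1)).z.2 i

lemma lim_eq (x : ℕ → Bool) (k : ℕ) : ∀ i < (node s₀ x k).n,
    lim₁ s₀ x i = (node s₀ x k).z.1 i ∧ lim₂ s₀ x i = (node s₀ x k).z.2 i := by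
  intro i hi
  rcases le_total k (i + 1) with h | h
  · exact node_agree s₀ x h i hi
  · have h1 := node_agree s₀ x h i (Nat.lt_of_succ_le (le_node s₀ x (i + 1)))
    exact ⟨h1.1.symm, h1.2.symm⟩

lemma lim_mem (hH : IsClosed H) (x : ℕ → Bool) : (lim₁ s₀ x, lim₂ s₀ x) ∈ H := by
  have h1 : Tendsto (fun k => (node s₀ x k).z) atTop (𝓝 (lim₁ s₀ x, lim₂ s₀ x)) := by
    apply Tendsto.prodMk_nhds
    · rw [tendsto_pi_nhds]
      intro i
      rw [nhds_discrete, tendsto_pure]
      filter_upwards [eventually_gt_atTop i] with k hk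
      exact ((lim_eq s₀ x k i (hk.trans_le (le_node s₀ x k))).1).symm
    · rw [tendsto_pi_nhds]
      intro i
      rw [nhds_discrete, tendsto_pure]
      filter_upwards [eventually_gt_atTop i] with k hk
      exact ((lim_eq s₀ x k i (hk.trans_le (le_node s₀ x k))).2).symm
  exact hH.mem_of_tendsto h1 (Eventually.of_forall fun k => (node s₀ x k).mem.1)

lemma node_congr {x y : ℕ → Bool} {k : ℕ} (h : ∀ i < k, x i = y i) :
    node s₀ x k = node s₀ y k := by
  induction k with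
  | zero => rfl
  | succ k ih =>
    change child (node s₀ x k) (x k) = child (node s₀ y k) (y k)
    rw [ih fun i hi => h i (hi.trans (Nat.lt_succ_self k)), h k (Nat.lt_succ_self k)]

lemma exists_first_diff {x y : ℕ → Bool} (h : x ≠ y) : ∃ k, x k ≠ y k ∧ ∀ i < k, x i = y i := by
  classical
  have hex : ∃ k, x k ≠ y k := Function.ne_iff.1 h
  refine ⟨Nat.find hex, Nat.find_spec hex, fun i hi => ?_⟩
  have := Nat.find_min hex hi
  rwa [not_not] at this

lemma lim₁_injective : Function.Injective (lim₁ s₀) := by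
  intro x y hxy
  by_contra hne
  obtain ⟨k, hk, hlt⟩ := exists_first_diff hne
  have hs := node_congr s₀ hlt
  obtain ⟨i, hi0, hi1, hine⟩ := (exists_split (node s₀ x k)).choose_spec.2.2.1
  have key : ∀ w : ℕ → Bool, node s₀ w k = node s₀ x k → ∀ e, w k = e →
      i < (child (node s₀ x k) e).n → lim₁ s₀ w i = (child (node s₀ x k) e).z.1 i := by
    intro w hw e he hi
    have h1 : node s₀ w (k + 1) = child (node s₀ x k) e := by
      change child (node s₀ w k) (w k) = _
      rw [hw, he]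
    have h2 := (lim_eq s₀ w (k + 1) i (by rw [h1]; exact hi)).1
    rw [h2, h1]
  apply hine
  change (child (node s₀ x k) false).z.1 i = (child (node s₀ x k) true).z.1 i
  rcases hx : x k with _ | _ <;> rcases hy : y k with _ | _
  · exact absurd (hx.trans hy.symm) hk
  · rw [← key x rfl false hx hi0, ← key y hs.symm true hy hi1, hxy]
  · rw [← key y hs.symm false hy hi0, ← key x rfl true hx hi1, hxy]
  · exact absurd (hx.trans hy.symm) hk

lemma lim₂_injective : Function.Injective (lim₂ s₀) := by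
  intro x y hxy
  by_contra hne
  obtain ⟨k, hk, hlt⟩ := exists_first_diff hne
  have hs := node_congr s₀ hlt
  obtain ⟨i, hi0, hi1, hine⟩ := (exists_split (node s₀ x k)).choose_spec.2.2.2
  have key : ∀ w : ℕ → Bool, node s₀ w k = node s₀ x k → ∀ e, w k = e →
      i < (child (node s₀ x k) e).n → lim₂ s₀ w i = (child (node s₀ x k) e).z.2 i := by
    intro w hw e he hi
    have h1 : node s₀ w (k + 1) = child (node s₀ x k) e := by
      change child (node s₀ w k) (w k) = _
      rw [hw, he]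
    have h2 := (lim_eq s₀ w (k + 1) i (by rw [h1]; exact hi)).2
    rw [h2, h1]
  apply hine
  change (child (node s₀ x k) false).z.2 i = (child (node s₀ x k) true).z.2 i
  rcases hx : x k with _ | _ <;> rcases hy : y k with _ | _
  · exact absurd (hx.trans hy.symm) hk
  · rw [← key x rfl false hx hi0, ← key y hs.symm true hy hi1, hxy]
  · rw [← key y hs.symm false hy hi0, ← key x rfl true hx hi1, hxy]
  · exact absurd (hx.trans hy.symm) hk

lemma lim_ne (hs : ∃ i < s₀.n, s₀.z.1 i ≠ s₀.z.2 i) (x y : ℕ → Bool) :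
    lim₁ s₀ x ≠ lim₂ s₀ y := by
  intro h
  obtain ⟨i, hi, hne⟩ := hs
  apply hne
  have h1 := (lim_eq s₀ x 0 i hi).1
  have h2 := (lim_eq s₀ y 0 i hi).2
  change lim₁ s₀ x i = s₀.z.1 i at h1
  change lim₂ s₀ y i = s₀.z.2 i at h2
  rw [← h1, ← h2, h]

end

/-- A closed set of pairs that is not thin contains `2^ω` pairs with distinct coordinates. -/
theorem exists_perfect {H : Set (BB × BB)} (hH : IsClosed H) (hthin : ¬ Thin H) :
    ∃ u v : (ℕ → Bool) → BB, Function.Injective u ∧ Function.Injective v ∧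
      (∀ x y, u x ≠ v y) ∧ ∀ x, (u x, v x) ∈ H := by
  obtain ⟨z, hz⟩ := ker_nonempty hthin
  obtain ⟨i, hi⟩ := Function.ne_iff.1 hz.2.1
  let s₀ : Node H := ⟨z, i + 1, hz⟩
  exact ⟨lim₁ s₀, lim₂ s₀, lim₁_injective s₀, lim₂_injective s₀,
    lim_ne s₀ ⟨i, Nat.lt_succ_self i, hi⟩, lim_mem s₀ hH⟩

end Pool.Agent.Lib.MP_7165d8_gt
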