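import Mathlib
import Pool.Agent.Lib.MP_7165d8_gt.Scheme

/-!
A Bernstein-type colouring of the Baire space.
-/

open Cardinal Set Filter Topology

namespace Pool.Agent.Lib.MP_7165d8_gt

lemma exists_good {K : Type} [LinearOrder K] (hK : ∀ k : K, #(Iio k) < 𝔠)
    (u v : K → (ℕ → Bool) → BB) (hu : ∀ k, Function.Injective (u k))
    (hv : ∀ k, Function.Injective (v k)) (k : K) (y : ∀ l : K, l < k → (ℕ → Bool)) :
    ∃ z : ℕ → Bool, ∀ l (h : l < k), u k z ≠ u l (y l h) ∧ u k z ≠ v l (y l h) ∧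
      v k z ≠ u l (y l h) ∧ v k z ≠ v l (y l h) := by
  let S : Iio k → Set (ℕ → Bool) := fun l =>
    ({z | u k z = u l.1 (y l.1 l.2)} ∪ {z | u k z = v l.1 (y l.1 l.2)}) ∪
      ({z | v k z = u l.1 (y l.1 l.2)} ∪ {z | v k z = v l.1 (y l.1 l.2)})
  have hS : ∀ l, (S l).Countable := by
    intro l
    have h1 : ∀ b : BB, {z | u k z = b}.Subsingleton := fun b z hz w hw => hu k (hz.trans hw.symm)
    have h2 : ∀ b : BB, {z | v k z = b}.Subsingleton := fun b z hz w hw => hv k (hz.trans hw.symm)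
    exact ((h1 _).countable.union (h1 _).countable).union ((h2 _).countable.union (h2 _).countable)
  have hcard : #(⋃ l, S l : Set (ℕ → Bool)) < 𝔠 := by
    refine (mk_iUnion_le S).trans_lt ?_
    refine (mul_le_mul_right (ciSup_le' (a := ℵ₀) fun l =>
      le_aleph0_iff_set_countable.2 (hS l)) _).trans_lt ?_
    exact mul_lt_of_lt aleph0_le_continuum (hK k) aleph0_lt_continuum
  obtain ⟨z, hz⟩ : ∃ z, z ∉ ⋃ l, S l := by
    by_contra hcon
    push Not at hcon
    have h1 : (⋃ l, S l) = Set.univ := eq_univ_of_forall hcon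
    rw [h1, mk_univ] at hcard
    have h2 : #(ℕ → Bool) = 𝔠 := by simp
    exact absurd hcard (by rw [h2]; exact lt_irrefl _)
  refine ⟨z, fun l h => ?_⟩
  have h1 : z ∉ S ⟨l, h⟩ := fun h2 => hz (mem_iUnion.2 ⟨⟨l, h⟩, h2⟩)
  refine ⟨fun h2 => h1 (Or.inl (Or.inl h2)), fun h2 => h1 (Or.inl (Or.inr h2)),
    fun h2 => h1 (Or.inr (Or.inl h2)), fun h2 => h1 (Or.inr (Or.inr h2))⟩

lemma exists_transversal {K : Type} [LinearOrder K] [WellFoundedLT K]
    (hK : ∀ k : K, #(Iio k) < 𝔠)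
    (u v : K → (ℕ → Bool) → BB) (hu : ∀ k, Function.Injective (u k))
    (hv : ∀ k, Function.Injective (v k)) :
    ∃ x : K → (ℕ → Bool), ∀ k l, l < k → u k (x k) ≠ u l (x l) ∧ u k (x k) ≠ v l (x l) ∧
      v k (x k) ≠ u l (x l) ∧ v k (x k) ≠ v l (x l) := by
  let F : ∀ k : K, (∀ l : K, l < k → (ℕ → Bool)) → (ℕ → Bool) := fun k y =>
    (exists_good hK u v hu hv k y).choose
  have hF : ∀ k y, ∀ l (h : l < k), u k (F k y) ≠ u l (y l h) ∧ u k (F k y) ≠ v l (y l h) ∧
      v k (F k y) ≠ u l (y l h) ∧ v k (F k y) ≠ v l (y l h) := fun k y =>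
    (exists_good hK u v hu hv k y).choose_spec
  let x : K → (ℕ → Bool) := (wellFounded_lt (α := K)).fix F
  have hx : ∀ k, x k = F k (fun l _ => x l) := fun k => (wellFounded_lt (α := K)).fix_eq F k
  refine ⟨x, fun k l h => ?_⟩
  have := hF k (fun l _ => x l) l h
  rw [← hx k] at this
  exact this

lemma mk_closed_le {X : Type} [TopologicalSpace X] [SecondCountableTopology X] :
    #{H : Set X // IsClosed H} ≤ 𝔠 := by
  let b := TopologicalSpace.countableBasis X
  have hb : #(Set b) ≤ 𝔠 := by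
    rw [mk_set]
    have h1 : #b ≤ ℵ₀ := le_aleph0_iff_set_countable.2 (TopologicalSpace.countable_countableBasis X)
    calc 2 ^ #b ≤ 2 ^ ℵ₀ := power_le_power_left two_ne_zero h1
      _ = 𝔠 := two_power_aleph0
  refine le_trans (mk_le_of_injective (f := fun H : {H : Set X // IsClosed H} =>
    ({U : b | (U : Set X) ∩ H.1 = ∅} : Set b)) ?_) hb
  have key : ∀ H H' : {H : Set X // IsClosed H},
      {U : b | (U : Set X) ∩ H.1 = ∅} = {U : b | (U : Set X) ∩ H'.1 = ∅} → H.1 ⊆ H'.1 := by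
    intro H H' h x hx
    by_contra hx'
    obtain ⟨U, hU, hxU, hUH⟩ := (TopologicalSpace.isBasis_countableBasis X).exists_subset_of_mem_open
      (show x ∈ H'.1ᶜ from hx') H'.2.isOpen_compl
    have h1 : (⟨U, hU⟩ : b) ∈ {U : b | (U : Set X) ∩ H'.1 = ∅} := by
      change U ∩ H'.1 = ∅
      rw [← disjoint_iff_inter_eq_empty]
      exact disjoint_left.2 fun y hy hy' => hUH hy hy'
    rw [← h] at h1
    have h2 : x ∈ U ∩ H.1 := ⟨hxU, hx⟩
    have h3 : U ∩ H.1 = ∅ := h1
    rw [h3] at h2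
    exact h2
  intro H H' h
  exact Subtype.ext ((key H H' h).antisymm (key H' H h.symm))

/-- A colouring of the Baire space with at most `2^ω` colours such that every closed set of pairs
that is not thin contains a pair of distinct points with any prescribed pair of colours. -/
theorem exists_assign {A : Type} [Nonempty A] (hA : #A ≤ 𝔠) : ∃ φ : BB → A, ∀ (a b : A)
    (H : Set (BB × BB)), IsClosed H → ¬ Thin H →
      ∃ p q, p ≠ q ∧ (p, q) ∈ H ∧ φ p = a ∧ φ q = b := by
  classical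
  let Task := (A × A) × {H : {H : Set (BB × BB) // IsClosed H} // ¬ Thin H.1}
  by_cases hT : Nonempty Task
  swap
  · refine ⟨fun _ => Classical.arbitrary A, fun a b H hH hthin => ?_⟩
    exact absurd ⟨((a, b), ⟨⟨H, hH⟩, hthin⟩)⟩ hT
  have hTc : #Task ≤ #((𝔠 : Cardinal.{0}).ord.ToType) := by
    rw [mk_ord_toType, mk_prod, mk_prod]
    simp only [Cardinal.lift_id]
    refine mul_le_of_le aleph0_le_continuum (mul_le_of_le aleph0_le_continuum hA hA) ?_
    exact (mk_subtype_le _).trans mk_closed_le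
  obtain ⟨e⟩ : Nonempty (Task ↪ (𝔠 : Cardinal.{0}).ord.ToType) := hTc
  obtain ⟨g, hg⟩ : ∃ g : (𝔠 : Cardinal.{0}).ord.ToType → Task, Function.Surjective g :=
    ⟨Function.invFun e, Function.invFun_surjective e.injective⟩
  have hK : ∀ k : (𝔠 : Cardinal.{0}).ord.ToType, #(Iio k) < 𝔠 := by
    intro k
    have := mk_Iio_lt k (by rw [mk_ord_toType, Ordinal.type_toType])
    rwa [mk_ord_toType] at this
  have huv : ∀ k : (𝔠 : Cardinal.{0}).ord.ToType, ∃ u v : (ℕ → Bool) → BB, Function.Injective u ∧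
      Function.Injective v ∧ (∀ x y, u x ≠ v y) ∧ ∀ x, (u x, v x) ∈ (g k).2.1.1 := fun k =>
    exists_perfect (g k).2.1.2 (g k).2.2
  choose u v hu hv huv hmem using huv
  obtain ⟨x, hx⟩ := exists_transversal hK u v hu hv
  have hinj1 : ∀ k l, u k (x k) = u l (x l) → k = l := by
    intro k l h
    rcases lt_trichotomy k l with h1 | h1 | h1
    · exact absurd h.symm (hx l k h1).1
    · exact h1
    · exact absurd h (hx k l h1).1
  have hinj2 : ∀ k l, v k (x k) = v l (x l) → k = l := by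
    intro k l h
    rcases lt_trichotomy k l with h1 | h1 | h1
    · exact absurd h.symm (hx l k h1).2.2.2
    · exact h1
    · exact absurd h (hx k l h1).2.2.2
  have hne : ∀ k l, u k (x k) ≠ v l (x l) := by
    intro k l h
    rcases lt_trichotomy k l with h1 | h1 | h1
    · exact absurd h.symm (hx l k h1).2.2.1
    · subst h1
      exact huv k _ _ h
    · exact absurd h (hx k l h1).2.1
  let φ : BB → A := fun t =>
    if h : ∃ k, t = u k (x k) then (g h.choose).1.1
    else if h : ∃ k, t = v k (x k) then (g h.choose).1.2 else Classical.arbitrary A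
  have hφ1 : ∀ k, φ (u k (x k)) = (g k).1.1 := by
    intro k
    have h : ∃ l, u k (x k) = u l (x l) := ⟨k, rfl⟩
    have h1 : φ (u k (x k)) = (g h.choose).1.1 := dif_pos h
    rw [h1, ← hinj1 k _ h.choose_spec]
  have hφ2 : ∀ k, φ (v k (x k)) = (g k).1.2 := by
    intro k
    have h0 : ¬ ∃ l, v k (x k) = u l (x l) := by
      rintro ⟨l, hl⟩
      exact hne l k hl.symm
    have h : ∃ l, v k (x k) = v l (x l) := ⟨k, rfl⟩
    have h1 : φ (v k (x k)) = (g h.choose).1.2 := (dif_neg h0).trans (dif_pos h)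
    rw [h1, ← hinj2 k _ h.choose_spec]
  refine ⟨φ, fun a b H hH hthin => ?_⟩
  obtain ⟨k, hk⟩ := hg ((a, b), ⟨⟨H, hH⟩, hthin⟩)
  refine ⟨u k (x k), v k (x k), huv k _ _, ?_, ?_, ?_⟩
  · have := hmem k (x k)
    rw [hk] at this
    exact this
  · rw [hφ1, hk]
  · rw [hφ2, hk]

end Pool.Agent.Lib.MP_7165d8_gt
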