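import Mathlib
import Pool.Agent.Lib.MP_7165d8_gt.Defs
import Pool.Agent.Lib.MP_7165d8_gt.Scale
import Pool.Agent.Lib.MP_7165d8_gt.Abstract

/-!
The parts of bounded rank of the refined space are Lindelöf, and the space is not Lindelöf.
-/

open Cardinal Ordinal Set Filter Topology

namespace Pool.Agent.Lib.MP_7165d8_gt

lemma isLindelof_of_cover_mod {X : Type} [TopologicalSpace X] {S : Set X}
    (h : ∀ (ι : Type) (U : ι → Set X), (∀ i, IsOpen (U i)) → S ⊆ ⋃ i, U i →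
      ∃ t : Set ι, t.Countable ∧ ∃ L : Set X, IsLindelof L ∧ L ⊆ S ∧ S ⊆ (⋃ i ∈ t, U i) ∪ L) :
    IsLindelof S := by
  apply isLindelof_of_countable_subcover
  intro ι U hU hS
  obtain ⟨t, ht, L, hL, hLS, hcov⟩ := h ι U hU hS
  obtain ⟨t', ht', hLt'⟩ := hL.elim_countable_subcover U hU (hLS.trans hS)
  refine ⟨t ∪ t', ht.union ht', fun z hz => ?_⟩
  rcases hcov hz with h1 | h1
  · obtain ⟨i, hi, hzi⟩ := mem_iUnion₂.1 h1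
    exact mem_iUnion₂.2 ⟨i, Or.inl hi, hzi⟩
  · obtain ⟨i, hi, hzi⟩ := mem_iUnion₂.1 (hLt' h1)
    exact mem_iUnion₂.2 ⟨i, Or.inr hi, hzi⟩

variable {T Λ : Type} [TopologicalSpace T] [LinearOrder Λ]
  (f : Λ → PI) (B : T → Set ℕ) (ρ : T → Λ) (k : T → ℕ)

open Classical in
/-- The coordinates of a point of `T`. -/
noncomputable def xv (t : T) (i : ℕ) : J i :=
  if i ∈ B t ∧ k t ≤ i then ((f (ρ t) i : I i) : J i) else ⊤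

variable {f B ρ k}

omit [TopologicalSpace T] [LinearOrder Λ] in
lemma xv_le {p q : T} {m : ℕ} (hk : k q ≤ k p) (hfi : ∀ i, k p ≤ i → f (ρ q) i ≤ f (ρ p) i)
    (hB : ∀ i < m, (i ∈ B q ↔ i ∈ B p)) : ∀ i < m, xv f B ρ k q i ≤ xv f B ρ k p i := by
  intro i hi
  unfold xv
  by_cases h : i ∈ B p ∧ k p ≤ i
  · rw [if_pos h, if_pos ⟨(hB i hi).2 h.1, hk.trans h.2⟩]
    exact WithTop.coe_le_coe.2 (hfi i h.2)
  · rw [if_neg h]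
    exact le_top

omit [LinearOrder Λ] in
lemma nhds_agree (hBo : ∀ t i, ∀ᶠ q in 𝓝 t, (i ∈ B q ↔ i ∈ B t)) (t : T) (m : ℕ) :
    {q | ∀ i < m, (i ∈ B q ↔ i ∈ B t)} ∈ 𝓝 t := by
  have : ∀ᶠ q in 𝓝 t, ∀ i ∈ Finset.range m, (i ∈ B q ↔ i ∈ B t) :=
    (Filter.eventually_all_finset _).2 fun i _ => hBo t i
  filter_upwards [this] with q hq i hi
  exact hq i (Finset.mem_range.2 hi)

lemma exists_nbhd_one (hBo : ∀ t i, ∀ᶠ q in 𝓝 t, (i ∈ B q ↔ i ∈ B t))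
    {V : Set (Sp ρ (xv f B ρ k))} (hV : IsOpen V) {p : T} (hp : ⟨p⟩ ∈ V) :
    ∃ G : Set T, IsOpen G ∧ p ∈ G ∧ ∃ η : WithBot Λ, η < ρ p ∧ ∀ q ∈ G, η < ρ q → k q ≤ k p →
      (∀ i, k p ≤ i → f (ρ q) i ≤ f (ρ p) i) → (⟨q⟩ : Sp ρ (xv f B ρ k)) ∈ V := by
  obtain ⟨G, hG, η, hη, m, h⟩ := isOpen_iff'.1 hV ⟨p⟩ hp
  obtain ⟨G', hG', hG'o, hpG'⟩ := mem_nhds_iff.1 (inter_mem hG (nhds_agree hBo p m))
  refine ⟨G', hG'o, hpG', η, hη, fun q hq hηq hk hfi => ?_⟩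
  exact h ⟨q⟩ (hG' hq).1 hηq (xv_le hk hfi (hG' hq).2)

lemma exists_nbhd_two (hBo : ∀ t i, ∀ᶠ q in 𝓝 t, (i ∈ B q ↔ i ∈ B t))
    {V : Set (Sp ρ (xv f B ρ k) × Sp ρ (xv f B ρ k))} (hV : IsOpen V) {p p' : T}
    (hp : (⟨p⟩, ⟨p'⟩) ∈ V) :
    ∃ G : Set (T × T), IsOpen G ∧ (p, p') ∈ G ∧ ∃ η : WithBot Λ, η < ρ p ∧
      ∃ η' : WithBot Λ, η' < ρ p' ∧ ∀ q q', (q, q') ∈ G → η < ρ q → η' < ρ q' →
      k q ≤ k p → (∀ i, k p ≤ i → f (ρ q) i ≤ f (ρ p) i) →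
      k q' ≤ k p' → (∀ i, k p' ≤ i → f (ρ q') i ≤ f (ρ p') i) →
      ((⟨q⟩, ⟨q'⟩) : Sp ρ (xv f B ρ k) × Sp ρ (xv f B ρ k)) ∈ V := by
  obtain ⟨G, hG, η, hη, η', hη', m, h⟩ := exists_box hV hp
  have h1 : G ∩ ({q | ∀ i < m, (i ∈ B q ↔ i ∈ B p)} ×ˢ {q | ∀ i < m, (i ∈ B q ↔ i ∈ B p')}) ∈
      𝓝 (p, p') := inter_mem hG (prod_mem_nhds (nhds_agree hBo p m) (nhds_agree hBo p' m))
  obtain ⟨G', hG', hG'o, hpG'⟩ := mem_nhds_iff.1 h1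
  refine ⟨G', hG'o, hpG', η, hη, η', hη', fun q q' hq hηq hηq' hk hfi hk' hfi' => ?_⟩
  have h2 := hG' hq
  exact h ⟨q⟩ ⟨q'⟩ h2.1 hηq hηq' (xv_le hk hfi h2.2.1) (xv_le hk' hfi' h2.2.2)

omit [TopologicalSpace T] in
lemma exists_threshold (hf : ∀ η ξ, η ≤ ξ → ∀ᶠ n in atTop, f η n ≤ f ξ n) {ξ : Λ} {q : T}
    (hq : ρ q ≤ ξ) : ∃ a, k q ≤ a ∧ ∀ i, a ≤ i → f (ρ q) i ≤ f ξ i := by
  obtain ⟨a, ha⟩ := eventually_atTop.1 (hf _ _ hq)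
  exact ⟨max a (k q), le_max_right _ _, fun i hi => ha i ((le_max_left _ _).trans hi)⟩

variable [WellFoundedLT Λ]

theorem isLindelof_one [HereditarilyLindelofSpace T]
    (hf : ∀ η ξ, η ≤ ξ → ∀ᶠ n in atTop, f η n ≤ f ξ n)
    (hBo : ∀ t i, ∀ᶠ q in 𝓝 t, (i ∈ B q ↔ i ∈ B t))
    (hT1 : ∀ (ξ : Λ) (a : ℕ) (c : T) (G : Set T), IsOpen G →
      (∀ q, q ≠ c → ρ q = ξ → k q = a → q ∈ G) → Gᶜ.Countable)
    (c : T) (ξ : Λ) : IsLindelof {q : Sp ρ (xv f B ρ k) | q.pt ≠ c ∧ ρ q.pt ≤ ξ} := by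
  induction ξ using WellFoundedLT.induction with
  | _ ξ ih =>
  apply isLindelof_of_cover_mod
  intro ι U hU hcov
  have hex : ∀ p : {p : T // p ≠ c ∧ ρ p = ξ}, ∃ i, ∃ G : Set T, IsOpen G ∧ p.1 ∈ G ∧
      ∃ η : WithBot Λ, η < ξ ∧ ∀ q ∈ G, η < ρ q → k q ≤ k p.1 →
        (∀ i, k p.1 ≤ i → f (ρ q) i ≤ f ξ i) → (⟨q⟩ : Sp ρ (xv f B ρ k)) ∈ U i := by
    rintro ⟨p, hpc, hpξ⟩
    obtain ⟨i, hi⟩ := mem_iUnion.1 (hcov (show (⟨p⟩ : Sp ρ (xv f B ρ k)) ∈ _ from ⟨hpc, hpξ.le⟩))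
    obtain ⟨G, h1, h2, η, h3, h4⟩ := exists_nbhd_one hBo (hU i) hi
    rw [hpξ] at h3 h4
    exact ⟨i, G, h1, h2, η, h3, h4⟩
  choose i G hGo hpG η hη hG using hex
  have hC : ∀ a : ℕ, ∃ C : Set {p : T // p ≠ c ∧ ρ p = ξ}, C.Countable ∧ (∀ p ∈ C, k p.1 = a) ∧
      ∀ p : {p : T // p ≠ c ∧ ρ p = ξ}, k p.1 = a → G p ⊆ ⋃ p' ∈ C, G p' := by
    intro a
    obtain ⟨t, ht, hteq⟩ := eq_open_union_countable
      (fun p : {p : {p : T // p ≠ c ∧ ρ p = ξ} // k p.1 = a} => G p.1) (fun p => hGo p.1)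
    refine ⟨Subtype.val '' t, ht.image _, ?_, ?_⟩
    · rintro _ ⟨p, _, rfl⟩
      exact p.2
    · intro p hp q hq
      have : q ∈ ⋃ p : {p : {p : T // p ≠ c ∧ ρ p = ξ} // k p.1 = a}, G p.1 :=
        mem_iUnion.2 ⟨⟨p, hp⟩, hq⟩
      rw [← hteq] at this
      obtain ⟨p', hp', hq'⟩ := mem_iUnion₂.1 this
      exact mem_iUnion₂.2 ⟨p'.1, mem_image_of_mem _ hp', hq'⟩
  choose C hCc hCk hCG using hC
  have hbad : ∀ a, (⋃ p ∈ C a, G p)ᶜ.Countable := fun a =>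
    hT1 ξ a c _ (isOpen_biUnion fun p _ => hGo p) fun q hqc hqξ hqa =>
      hCG a ⟨q, hqc, hqξ⟩ hqa (hpG _)
  refine ⟨⋃ a, i '' C a, countable_iUnion fun a => (hCc a).image _,
    (⋃ a, ⋃ p ∈ C a, {q : Sp ρ (xv f B ρ k) | q.pt ≠ c ∧ (ρ q.pt : WithBot Λ) ≤ η p}) ∪
      {q : Sp ρ (xv f B ρ k) | (q.pt ≠ c ∧ ρ q.pt ≤ ξ) ∧ q.pt ∈ ⋃ a, (⋃ p ∈ C a, G p)ᶜ},
    ?_, ?_, ?_⟩
  · apply IsLindelof.union
    · apply isLindelof_iUnion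
      intro a
      apply (hCc a).isLindelof_biUnion
      intro p _
      rcases h : η p with _ | e
      · have : {q : Sp ρ (xv f B ρ k) | q.pt ≠ c ∧ (ρ q.pt : WithBot Λ) ≤ none} = ∅ := by
          ext q
          simp only [mem_ofPred_eq, mem_empty_iff_false, iff_false, not_and]
          intro _ h2
          exact absurd h2 (not_le.2 (WithBot.bot_lt_coe _))
        rw [this]
        exact isLindelof_empty
      · have h1 : e < ξ := by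
          have := hη p
          rw [h] at this
          exact WithBot.coe_lt_coe.1 this
        have h2 := ih e h1
        convert h2 using 3
        exact and_congr_right fun _ => WithBot.coe_le_coe
    · apply Set.Countable.isLindelof
      have h1 : (⋃ a, (⋃ p ∈ C a, G p)ᶜ).Countable := countable_iUnion hbad
      have h2 := h1.preimage_of_injOn (f := (Sp.pt : Sp ρ (xv f B ρ k) → T))
        (fun p _ q _ h => Sp.ext' h)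
      exact h2.mono fun q hq => hq.2
  · rintro q (hq | hq)
    · obtain ⟨a, ha⟩ := mem_iUnion.1 hq
      obtain ⟨p, hp, hqc, hqη⟩ := mem_iUnion₂.1 ha
      refine ⟨hqc, ?_⟩
      exact WithBot.coe_le_coe.1 (hqη.trans (hη p).le)
    · exact hq.1
  · intro q hq
    obtain ⟨a, hka, ha⟩ := exists_threshold (k := k) hf hq.2
    by_cases h1 : q.pt ∈ ⋃ p ∈ C a, G p
    · obtain ⟨p, hp, hqp⟩ := mem_iUnion₂.1 h1
      by_cases h2 : η p < ρ q.pt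
      · refine Or.inl (mem_iUnion₂.2 ⟨i p, mem_iUnion.2 ⟨a, mem_image_of_mem _ hp⟩, ?_⟩)
        have hkp := hCk a p hp
        refine hG p q.pt hqp h2 (by rw [hkp]; exact hka) fun j hj => ha j (by rw [← hkp]; exact hj)
      · refine Or.inr (Or.inl (mem_iUnion.2 ⟨a, mem_iUnion₂.2 ⟨p, hp, hq.1, not_lt.1 h2⟩⟩))
    · exact Or.inr (Or.inr ⟨hq, mem_iUnion.2 ⟨a, h1⟩⟩)

theorem isLindelof_two [HereditarilyLindelofSpace T] [HereditarilyLindelofSpace (T × T)]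
    (hf : ∀ η ξ, η ≤ ξ → ∀ᶠ n in atTop, f η n ≤ f ξ n)
    (hBo : ∀ t i, ∀ᶠ q in 𝓝 t, (i ∈ B q ↔ i ∈ B t))
    (hT1 : ∀ (ξ : Λ) (a : ℕ) (c : T) (G : Set T), IsOpen G →
      (∀ q, q ≠ c → ρ q = ξ → k q = a → q ∈ G) → Gᶜ.Countable)
    (hT2 : ∀ (ξ ξ' : Λ) (a b : ℕ) (G : Set (T × T)), IsOpen G →
      (∀ p q, p ≠ q → ρ p = ξ → k p = a → ρ q = ξ' → k q = b → (p, q) ∈ G) →
      ∃ C : Set T, C.Countable ∧ ∀ p q, p ≠ q → (p, q) ∉ G → p ∈ C ∨ q ∈ C)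
    (ξ ξ' : Λ) : IsLindelof {z : Sp ρ (xv f B ρ k) × Sp ρ (xv f B ρ k) |
      z.1 ≠ z.2 ∧ ρ z.1.pt ≤ ξ ∧ ρ z.2.pt ≤ ξ'} := by
  induction ξ using WellFoundedLT.induction generalizing ξ' with
  | _ ξ ih =>
  induction ξ' using WellFoundedLT.induction with
  | _ ξ' ih' =>
  apply isLindelof_of_cover_mod
  intro ι U hU hcov
  have hex : ∀ p : {p : T × T // p.1 ≠ p.2 ∧ ρ p.1 = ξ ∧ ρ p.2 = ξ'},
      ∃ i, ∃ G : Set (T × T), IsOpen G ∧ p.1 ∈ G ∧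
      ∃ η : WithBot Λ, η < ξ ∧ ∃ η' : WithBot Λ, η' < ξ' ∧ ∀ q q', (q, q') ∈ G → η < ρ q →
        η' < ρ q' → k q ≤ k p.1.1 → (∀ i, k p.1.1 ≤ i → f (ρ q) i ≤ f ξ i) →
        k q' ≤ k p.1.2 → (∀ i, k p.1.2 ≤ i → f (ρ q') i ≤ f ξ' i) →
        ((⟨q⟩, ⟨q'⟩) : Sp ρ (xv f B ρ k) × Sp ρ (xv f B ρ k)) ∈ U i := by
    rintro ⟨⟨p, p'⟩, hpp, hpξ, hpξ'⟩
    simp only at hpp hpξ hpξ'
    have hmem : ((⟨p⟩, ⟨p'⟩) : Sp ρ (xv f B ρ k) × Sp ρ (xv f B ρ k)) ∈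
        {z : Sp ρ (xv f B ρ k) × Sp ρ (xv f B ρ k) |
          z.1 ≠ z.2 ∧ ρ z.1.pt ≤ ξ ∧ ρ z.2.pt ≤ ξ'} :=
      ⟨fun h => hpp (congrArg Sp.pt h), hpξ.le, hpξ'.le⟩
    obtain ⟨i, hi⟩ := mem_iUnion.1 (hcov hmem)
    obtain ⟨G, h1, h2, η, h3, η', h3', h4⟩ := exists_nbhd_two hBo (hU i) hi
    rw [hpξ] at h3 h4
    rw [hpξ'] at h3' h4
    exact ⟨i, G, h1, h2, η, h3, η', h3', h4⟩
  choose i G hGo hpG η hη η' hη' hG using hex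
  have hC : ∀ a b : ℕ, ∃ C : Set {p : T × T // p.1 ≠ p.2 ∧ ρ p.1 = ξ ∧ ρ p.2 = ξ'},
      C.Countable ∧ (∀ p ∈ C, k p.1.1 = a ∧ k p.1.2 = b) ∧
      ∀ p : {p : T × T // p.1 ≠ p.2 ∧ ρ p.1 = ξ ∧ ρ p.2 = ξ'}, k p.1.1 = a → k p.1.2 = b →
        G p ⊆ ⋃ p' ∈ C, G p' := by
    intro a b
    obtain ⟨t, ht, hteq⟩ := eq_open_union_countable
      (fun p : {p : {p : T × T // p.1 ≠ p.2 ∧ ρ p.1 = ξ ∧ ρ p.2 = ξ'} //
        k p.1.1 = a ∧ k p.1.2 = b} => G p.1) (fun p => hGo p.1)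
    refine ⟨Subtype.val '' t, ht.image _, ?_, ?_⟩
    · rintro _ ⟨p, _, rfl⟩
      exact p.2
    · intro p hp hp' q hq
      have : q ∈ ⋃ p : {p : {p : T × T // p.1 ≠ p.2 ∧ ρ p.1 = ξ ∧ ρ p.2 = ξ'} //
        k p.1.1 = a ∧ k p.1.2 = b}, G p.1 := mem_iUnion.2 ⟨⟨p, hp, hp'⟩, hq⟩
      rw [← hteq] at this
      obtain ⟨p', hp', hq'⟩ := mem_iUnion₂.1 this
      exact mem_iUnion₂.2 ⟨p'.1, mem_image_of_mem _ hp', hq'⟩
  choose C hCc hCk hCG using hC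
  have hbad : ∀ a b, ∃ N : Set T, N.Countable ∧
      ∀ p q, p ≠ q → (p, q) ∉ (⋃ p ∈ C a b, G p) → p ∈ N ∨ q ∈ N := fun a b =>
    hT2 ξ ξ' a b _ (isOpen_biUnion fun p _ => hGo p) fun p q hpq h1 h2 h3 h4 =>
      hCG a b ⟨(p, q), hpq, h1, h3⟩ h2 h4 (hpG _)
  choose N hNc hN using hbad
  let L₁ : Set (Sp ρ (xv f B ρ k) × Sp ρ (xv f B ρ k)) := ⋃ a, ⋃ b, ⋃ p ∈ C a b,
    ({z | z.1 ≠ z.2 ∧ (ρ z.1.pt : WithBot Λ) ≤ η p ∧ ρ z.2.pt ≤ ξ'} ∪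
      {z | z.1 ≠ z.2 ∧ ρ z.1.pt ≤ ξ ∧ (ρ z.2.pt : WithBot Λ) ≤ η' p})
  let L₂ : Set (Sp ρ (xv f B ρ k) × Sp ρ (xv f B ρ k)) := ⋃ a, ⋃ b, ⋃ c ∈ N a b ∩ {c | ρ c ≤ ξ},
    (fun q => (⟨c⟩, q)) '' {q : Sp ρ (xv f B ρ k) | q.pt ≠ c ∧ ρ q.pt ≤ ξ'}
  let L₃ : Set (Sp ρ (xv f B ρ k) × Sp ρ (xv f B ρ k)) := ⋃ a, ⋃ b, ⋃ c ∈ N a b ∩ {c | ρ c ≤ ξ'},
    (fun q => (q, ⟨c⟩)) '' {q : Sp ρ (xv f B ρ k) | q.pt ≠ c ∧ ρ q.pt ≤ ξ}
  refine ⟨⋃ a, ⋃ b, i '' C a b,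
    countable_iUnion fun a => countable_iUnion fun b => (hCc a b).image _,
    L₁ ∪ L₂ ∪ L₃, ?_, ?_, ?_⟩
  · refine IsLindelof.union (IsLindelof.union ?_ ?_) ?_
    · refine isLindelof_iUnion fun a => isLindelof_iUnion fun b =>
        (hCc a b).isLindelof_biUnion fun p _ => IsLindelof.union ?_ ?_
      · rcases h : η p with _ | e
        · have : {z : Sp ρ (xv f B ρ k) × Sp ρ (xv f B ρ k) |
              z.1 ≠ z.2 ∧ (ρ z.1.pt : WithBot Λ) ≤ none ∧ ρ z.2.pt ≤ ξ'} = ∅ := by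
            ext q
            simp only [mem_ofPred_eq, mem_empty_iff_false, iff_false, not_and]
            intro _ h2
            exact absurd h2 (not_le.2 (WithBot.bot_lt_coe _))
          rw [this]
          exact isLindelof_empty
        · have h1 : e < ξ := by
            have := hη p
            rw [h] at this
            exact WithBot.coe_lt_coe.1 this
          have h2 := ih e h1 ξ'
          convert h2 using 3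
          exact and_congr_right fun _ => and_congr_left fun _ => WithBot.coe_le_coe
      · rcases h : η' p with _ | e
        · have : {z : Sp ρ (xv f B ρ k) × Sp ρ (xv f B ρ k) |
              z.1 ≠ z.2 ∧ ρ z.1.pt ≤ ξ ∧ (ρ z.2.pt : WithBot Λ) ≤ none} = ∅ := by
            ext q
            simp only [mem_ofPred_eq, mem_empty_iff_false, iff_false, not_and]
            intro _ _ h2
            exact absurd h2 (not_le.2 (WithBot.bot_lt_coe _))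
          rw [this]
          exact isLindelof_empty
        · have h1 : e < ξ' := by
            have := hη' p
            rw [h] at this
            exact WithBot.coe_lt_coe.1 this
          have h2 := ih' e h1
          convert h2 using 3
          exact and_congr_right fun _ => and_congr_right fun _ => WithBot.coe_le_coe
    · refine isLindelof_iUnion fun a => isLindelof_iUnion fun b =>
        ((hNc a b).mono inter_subset_left).isLindelof_biUnion fun c _ => ?_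
      exact (isLindelof_one hf hBo hT1 c ξ').image (by fun_prop)
    · refine isLindelof_iUnion fun a => isLindelof_iUnion fun b =>
        ((hNc a b).mono inter_subset_left).isLindelof_biUnion fun c _ => ?_
      exact (isLindelof_one hf hBo hT1 c ξ).image (by fun_prop)
  · rintro z ((hz | hz) | hz)
    · obtain ⟨a, ha⟩ := mem_iUnion.1 hz
      obtain ⟨b, hb⟩ := mem_iUnion.1 ha
      obtain ⟨p, hp, hz' | hz'⟩ := mem_iUnion₂.1 hb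
      · exact ⟨hz'.1, WithBot.coe_le_coe.1 (hz'.2.1.trans (hη p).le), hz'.2.2⟩
      · exact ⟨hz'.1, hz'.2.1, WithBot.coe_le_coe.1 (hz'.2.2.trans (hη' p).le)⟩
    · obtain ⟨a, ha⟩ := mem_iUnion.1 hz
      obtain ⟨b, hb⟩ := mem_iUnion.1 ha
      obtain ⟨c, hc, q, hq, rfl⟩ := mem_iUnion₂.1 hb
      exact ⟨fun h => hq.1 (congrArg Sp.pt h).symm, hc.2, hq.2⟩
    · obtain ⟨a, ha⟩ := mem_iUnion.1 hz
      obtain ⟨b, hb⟩ := mem_iUnion.1 ha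
      obtain ⟨c, hc, q, hq, rfl⟩ := mem_iUnion₂.1 hb
      exact ⟨fun h => hq.1 (congrArg Sp.pt h), hq.2, hc.2⟩
  · rintro ⟨q, q'⟩ ⟨hqq, hqξ, hqξ'⟩
    simp only at hqq hqξ hqξ'
    obtain ⟨a, hka, ha⟩ := exists_threshold (k := k) hf hqξ
    obtain ⟨b, hkb, hb⟩ := exists_threshold (k := k) hf hqξ'
    have hne : q.pt ≠ q'.pt := fun h => hqq (Sp.ext' h)
    by_cases h1 : (q.pt, q'.pt) ∈ ⋃ p ∈ C a b, G p
    · obtain ⟨p, hp, hqp⟩ := mem_iUnion₂.1 h1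
      obtain ⟨hka', hkb'⟩ := hCk a b p hp
      by_cases h2 : η p < ρ q.pt
      · by_cases h3 : η' p < ρ q'.pt
        · refine Or.inl (mem_iUnion₂.2 ⟨i p, mem_iUnion.2 ⟨a, mem_iUnion.2 ⟨b,
            mem_image_of_mem _ hp⟩⟩, ?_⟩)
          refine hG p q.pt q'.pt hqp h2 h3 (by rw [hka']; exact hka) (fun j hj => ha j ?_)
            (by rw [hkb']; exact hkb) (fun j hj => hb j ?_)
          · rw [← hka']; exact hj
          · rw [← hkb']; exact hj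
        · refine Or.inr (Or.inl (Or.inl (mem_iUnion.2 ⟨a, mem_iUnion.2 ⟨b, mem_iUnion₂.2
            ⟨p, hp, Or.inr ⟨hqq, hqξ, not_lt.1 h3⟩⟩⟩⟩)))
      · refine Or.inr (Or.inl (Or.inl (mem_iUnion.2 ⟨a, mem_iUnion.2 ⟨b, mem_iUnion₂.2
          ⟨p, hp, Or.inl ⟨hqq, not_lt.1 h2, hqξ'⟩⟩⟩⟩)))
    · rcases hN a b q.pt q'.pt hne h1 with h2 | h2
      · exact Or.inr (Or.inl (Or.inr (mem_iUnion.2 ⟨a, mem_iUnion.2 ⟨b, mem_iUnion₂.2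
          ⟨q.pt, ⟨h2, hqξ⟩, q', ⟨hne.symm, hqξ'⟩, rfl⟩⟩⟩)))
      · exact Or.inr (Or.inr (mem_iUnion.2 ⟨a, mem_iUnion.2 ⟨b, mem_iUnion₂.2
          ⟨q'.pt, ⟨h2, hqξ'⟩, q, ⟨hne, hqξ⟩, rfl⟩⟩⟩))

end Pool.Agent.Lib.MP_7165d8_gt
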