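import Mathlib
import Pool.Agent.Lib.MP_7165d8_gt.Defs
import Pool.Agent.Lib.MP_7165d8_gt.Scale
import Pool.Agent.Lib.MP_7165d8_gt.Abstract
import Pool.Agent.Lib.MP_7165d8_gt.Lindelof

/-!
The co-diagonal of the refined space is discretely Lindelöf; the space itself is not Lindelöf.
-/

open Cardinal Ordinal Set Filter Topology

namespace Pool.Agent.Lib.MP_7165d8_gt

variable {T Λ : Type} [TopologicalSpace T] [LinearOrder Λ] {f : Λ → PI} {B : T → Set ℕ}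
  {ρ : T → Λ} {k : T → ℕ}

theorem discretelyLindelof_coDiag [WellFoundedLT Λ] [HereditarilyLindelofSpace T]
    [HereditarilyLindelofSpace (T × T)]
    (hΛ : ∀ A : Set Λ, #A ≤ #KI → ∃ ξ, ∀ a ∈ A, a < ξ)
    (hf : ∀ η ξ, η ≤ ξ → ∀ᶠ n in atTop, f η n ≤ f ξ n)
    (hBo : ∀ t i, ∀ᶠ q in 𝓝 t, (i ∈ B q ↔ i ∈ B t))
    (hT1 : ∀ (ξ : Λ) (a : ℕ) (c : T) (G : Set T), IsOpen G →
      (∀ q, q ≠ c → ρ q = ξ → k q = a → q ∈ G) → Gᶜ.Countable)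
    (hT2 : ∀ (ξ ξ' : Λ) (a b : ℕ) (G : Set (T × T)), IsOpen G →
      (∀ p q, p ≠ q → ρ p = ξ → k p = a → ρ q = ξ' → k q = b → (p, q) ∈ G) →
      ∃ C : Set T, C.Countable ∧ ∀ p q, p ≠ q → (p, q) ∉ G → p ∈ C ∨ q ∈ C) :
    DiscretelyLindelof {z : Sp ρ (xv f B ρ k) × Sp ρ (xv f B ρ k) // z.1 ≠ z.2} := by
  intro D hD
  let F : {z : Sp ρ (xv f B ρ k) × Sp ρ (xv f B ρ k) // z.1 ≠ z.2} → T × T :=
    fun z => (z.1.1.pt, z.1.2.pt)
  have hFinj : Function.Injective F := by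
    intro z w h
    apply Subtype.ext
    apply Prod.ext
    · exact Sp.ext' (congrArg Prod.fst h)
    · exact Sp.ext' (congrArg Prod.snd h)
  have hbox : ∀ t ∈ F '' D, ∃ W ∈ 𝓝 t, ∃ η : WithBot Λ, η < ρ t.1 ∧ ∃ η' : WithBot Λ,
      η' < ρ t.2 ∧ ∃ m : ℕ, ∀ w ∈ F '' D, w ∈ W → η < ρ w.1 → η' < ρ w.2 →
        (∀ i < m, xv f B ρ k w.1 i ≤ xv f B ρ k t.1 i) →
        (∀ i < m, xv f B ρ k w.2 i ≤ xv f B ρ k t.2 i) → w = t := by
    rintro _ ⟨z, hz, rfl⟩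
    have h1 : IsOpen ({⟨z, hz⟩} : Set D) := isOpen_discrete _
    obtain ⟨O, hO, hOeq⟩ := isOpen_induced_iff.1 h1
    obtain ⟨O', hO', hOeq'⟩ := isOpen_induced_iff.1 hO
    have hzO : z ∈ O := by
      have : (⟨z, hz⟩ : D) ∈ Subtype.val ⁻¹' O := by rw [hOeq]; rfl
      exact this
    have hzO' : (z.1.1, z.1.2) ∈ O' := by
      rw [← hOeq'] at hzO
      exact hzO
    obtain ⟨W, hW, η, hη, η', hη', m, h⟩ := exists_box hO' hzO'
    refine ⟨W, hW, η, hη, η', hη', m, ?_⟩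
    rintro _ ⟨w, hw, rfl⟩ h2 h3 h4 h5 h6
    have h7 : (w.1.1, w.1.2) ∈ O' := h w.1.1 w.1.2 h2 h3 h4 h5 h6
    have h8 : w ∈ O := by rw [← hOeq']; exact h7
    have h9 : (⟨w, hw⟩ : D) ∈ Subtype.val ⁻¹' O := h8
    rw [hOeq] at h9
    have h10 : w = z := congrArg Subtype.val h9
    rw [h10]
  choose! W hW η hη η' hη' m hm using hbox
  obtain ⟨ξ, hξ⟩ := small_of_isolated (x := xv f B ρ k) hΛ (F '' D) W η η' m hW hη hη' hm
  -- the closure has bounded rank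
  let R : Set {z : Sp ρ (xv f B ρ k) × Sp ρ (xv f B ρ k) // z.1 ≠ z.2} :=
    {z | ρ z.1.1.pt ≤ ξ ∧ ρ z.1.2.pt ≤ ξ}
  have hRc : IsClosed R := by
    have h1 : IsClosed {p : Sp ρ (xv f B ρ k) | ρ p.pt ≤ ξ} := by
      have := (isOpen_rank (ρ := ρ) (x := xv f B ρ k) ξ).isClosed_compl
      convert this using 1
      ext p
      simp
    have h2 : R = (fun z => z.1.1) ⁻¹' {p : Sp ρ (xv f B ρ k) | ρ p.pt ≤ ξ} ∩
        (fun z => z.1.2) ⁻¹' {p : Sp ρ (xv f B ρ k) | ρ p.pt ≤ ξ} := rfl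
    rw [h2]
    exact (h1.preimage (by fun_prop)).inter (h1.preimage (by fun_prop))
  have hRL : IsLindelof R := by
    rw [Topology.IsEmbedding.subtypeVal.isLindelof_iff]
    convert isLindelof_two hf hBo hT1 hT2 ξ ξ using 1
    ext z
    constructor
    · rintro ⟨w, hw, rfl⟩
      exact ⟨w.2, hw.1, hw.2⟩
    · rintro ⟨h1, h2, h3⟩
      exact ⟨⟨z, h1⟩, ⟨h2, h3⟩, rfl⟩
  have hDR : D ⊆ R := fun z hz => hξ (F z) (mem_image_of_mem F hz)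
  exact hRL.of_isClosed_subset isClosed_closure (closure_minimal hDR hRc)

theorem not_lindelofSpace (hg : ∀ g : PI, ∃ ξ, ∃ᶠ n in atTop, g n < f ξ n)
    (hBinf : ∀ t, (B t).Infinite)
    (hT3 : ∀ (ξ : Λ) (B₀ : Set ℕ), B₀.Infinite → ∃ t, ρ t = ξ ∧ B t ⊆ B₀) :
    ¬ LindelofSpace (Sp ρ (xv f B ρ k)) := by
  intro hL
  let U : KI → Set (Sp ρ (xv f B ρ k)) := fun y => {p | xv f B ρ k p.pt y.1 ≤ (y.2 : J y.1)}
  have hU : ∀ y, IsOpen (U y) := fun y => isOpen_x y.1 _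
  have hcov : (univ : Set (Sp ρ (xv f B ρ k))) ⊆ ⋃ y, U y := by
    intro p _
    obtain ⟨n, hn, hkn⟩ := (hBinf p.pt).exists_gt (k p.pt)
    refine mem_iUnion.2 ⟨⟨n, f (ρ p.pt) n⟩, ?_⟩
    change xv f B ρ k p.pt n ≤ _
    unfold xv
    rw [if_pos ⟨hn, hkn.le⟩]
  obtain ⟨t, ht, htc⟩ := isLindelof_univ.elim_countable_subcover U hU hcov
  have hb : ∀ n, ∃ b : I n, ∀ a ∈ {a : I n | (⟨n, a⟩ : KI) ∈ t}, a < b := by
    intro n
    apply I_bdd_countable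
    exact ht.preimage_of_injOn (f := fun a : I n => (⟨n, a⟩ : KI)) (fun a _ b _ h => by simpa using h)
  choose g hgb using hb
  obtain ⟨ξ, hξ⟩ := hg g
  obtain ⟨t₀, hρ, hB⟩ := hT3 ξ {n | g n < f ξ n} (Nat.frequently_atTop_iff_infinite.1 hξ)
  obtain ⟨⟨n, α⟩, hy, hp⟩ := mem_iUnion₂.1 (htc (mem_univ (⟨t₀⟩ : Sp ρ (xv f B ρ k))))
  change xv f B ρ k t₀ n ≤ (α : J n) at hp
  unfold xv at hp
  by_cases h : n ∈ B t₀ ∧ k t₀ ≤ n
  · rw [if_pos h, hρ] at hp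
    have h1 : f ξ n ≤ α := WithTop.coe_le_coe.1 hp
    have h2 : g n < f ξ n := hB h.1
    have h3 : α < g n := hgb n α hy
    exact absurd (h1.trans_lt (h3.trans h2)) (lt_irrefl _)
  · rw [if_neg h] at hp
    exact absurd hp (not_le.2 (WithTop.coe_lt_top _))

omit [LinearOrder Λ] in
/-- The one-variable condition follows from the two-variable one. -/
lemma hT1_of_hT2 (hT2 : ∀ (ξ ξ' : Λ) (a b : ℕ) (G : Set (T × T)), IsOpen G →
      (∀ p q, p ≠ q → ρ p = ξ → k p = a → ρ q = ξ' → k q = b → (p, q) ∈ G) →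
      ∃ C : Set T, C.Countable ∧ ∀ p q, p ≠ q → (p, q) ∉ G → p ∈ C ∨ q ∈ C) :
    ∀ (ξ : Λ) (a : ℕ) (c : T) (G : Set T), IsOpen G →
      (∀ q, q ≠ c → ρ q = ξ → k q = a → q ∈ G) → Gᶜ.Countable := by
  intro ξ a c G hG h
  obtain ⟨C, hC, hCG⟩ := hT2 ξ ξ a a {z | z.1 ∈ G ∨ z.2 ∈ G}
    ((hG.preimage continuous_fst).union (hG.preimage continuous_snd)) (by
      intro p q hpq h1 h2 h3 h4
      by_cases hp : p = c
      · exact Or.inr (h q (fun hq => hpq (hp.trans hq.symm)) h3 h4)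
      · exact Or.inl (h p hp h1 h2))
  have h1 : (Gᶜ \ C).Subsingleton := by
    intro p hp q hq
    by_contra hpq
    rcases hCG p q hpq (by rintro (h | h); exacts [hp.1 h, hq.1 h]) with h | h
    exacts [hp.2 h, hq.2 h]
  refine (hC.union h1.countable).mono fun p hp => ?_
  by_cases hpC : p ∈ C
  exacts [Or.inl hpC, Or.inr ⟨hp, hpC⟩]

end Pool.Agent.Lib.MP_7165d8_gt
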