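import Mathlib
import Pool.Agent.Lib.MP_7165d8_gt.Defs
import Pool.Agent.Lib.MP_7165d8_gt.Scale
import Pool.Agent.Lib.MP_7165d8_gt.Abstract
import Pool.Agent.Lib.MP_7165d8_gt.Lindelof
import Pool.Agent.Lib.MP_7165d8_gt.Main
import Pool.Agent.Lib.MP_7165d8_gt.Scheme
import Pool.Agent.Lib.MP_7165d8_gt.Assign

/-!
The Hausdorff example, when `ℵ_ω ≤ 2^ω`.
-/

open Cardinal Set Filter Topology

namespace Pool.Agent.Lib.MP_7165d8_gt

/-- Partial sums of `t i + 1`. -/
def ps (t : BB) (j : ℕ) : ℕ := ∑ i ∈ Finset.range (j + 1), (t i + 1)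

lemma ps_strictMono (t : BB) : StrictMono (ps t) := by
  apply strictMono_nat_of_lt_succ
  intro j
  unfold ps
  rw [Finset.sum_range_succ _ (j + 1)]
  omega

lemma lt_ps (t : BB) (j : ℕ) : j < ps t j := by
  induction j with
  | zero => unfold ps; simp
  | succ j ih => exact Nat.lt_of_le_of_lt ih (ps_strictMono t (Nat.lt_succ_self j))

lemma ps_congr {t q : BB} {j : ℕ} (h : ∀ l < j + 1, q l = t l) : ps q j = ps t j := by
  unfold ps
  apply Finset.sum_congr rfl
  intro i hi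
  rw [h i (Finset.mem_range.1 hi)]

/-- The infinite set coded by a point of the Baire space. -/
def BS (t : BB) : Set ℕ := range (ps t)

lemma BS_infinite (t : BB) : (BS t).Infinite :=
  infinite_range_of_injective (ps_strictMono t).injective

lemma nhds_BB (t : BB) (n : ℕ) : {q : BB | ∀ i < n, q i = t i} ∈ 𝓝 t := by
  have h1 : ∀ i, ∀ᶠ q : BB in 𝓝 t, q i = t i := by
    intro i
    have h2 : Tendsto (fun q : BB => q i) (𝓝 t) (𝓝 (t i)) := (continuous_apply i).tendsto t
    rwa [nhds_discrete ℕ, tendsto_pure] at h2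
  have h4 : ∀ᶠ q : BB in 𝓝 t, ∀ i ∈ Finset.range n, q i = t i :=
    (Filter.eventually_all_finset _).2 fun i _ => h1 i
  filter_upwards [h4] with w hw i hi
  exact hw i (Finset.mem_range.2 hi)

lemma BS_nhds (t : BB) (i : ℕ) : ∀ᶠ q in 𝓝 t, (i ∈ BS q ↔ i ∈ BS t) := by
  filter_upwards [nhds_BB t (i + 1)] with q hq
  have key : ∀ j < i, ps q j = ps t j := fun j hj => ps_congr fun l hl => hq l (by omega)
  constructor
  · rintro ⟨j, hj⟩
    have h1 : j < i := hj ▸ lt_ps q j
    exact ⟨j, (key j h1).symm.trans hj⟩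
  · rintro ⟨j, hj⟩
    have h1 : j < i := hj ▸ lt_ps t j
    exact ⟨j, (key j h1).trans hj⟩

/-- Every infinite set contains uncountably many coded sets. -/
lemma not_countable_BS {B₀ : Set ℕ} (hB : B₀.Infinite) : ¬ {t : BB | BS t ⊆ B₀}.Countable := by
  classical
  intro hcount
  let e : ℕ → ℕ := Nat.nth (· ∈ B₀)
  have he : StrictMono e := Nat.nth_strictMono hB
  have heB : ∀ n, e n ∈ B₀ := fun n => Nat.nth_mem_of_infinite hB n
  let w : (ℕ → Bool) → ℕ → ℕ := fun z j => e (2 * j + 1 + (z j).toNat)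
  have hw : ∀ z, StrictMono (w z) := by
    intro z
    apply strictMono_nat_of_lt_succ
    intro j
    apply he
    have := Bool.toNat_le (z j)
    omega
  let t : (ℕ → Bool) → BB := fun z j =>
    Nat.casesOn j (w z 0 - 1) (fun i => w z (i + 1) - w z i - 1)
  have hpos : ∀ z, 1 ≤ w z 0 := fun z => by
    have := he.id_le (2 * 0 + 1 + (z 0).toNat)
    change 2 * 0 + 1 + (z 0).toNat ≤ w z 0 at this
    omega
  have hps : ∀ z j, ps (t z) j = w z j := by
    intro z j
    induction j with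
    | zero =>
      unfold ps
      rw [Finset.sum_range_one]
      change (w z 0 - 1) + 1 = w z 0
      have := hpos z
      omega
    | succ j ih =>
      have h1 : ps (t z) (j + 1) = ps (t z) j + (t z (j + 1) + 1) := by
        unfold ps
        rw [Finset.sum_range_succ _ (j + 1)]
      rw [h1, ih]
      change w z j + ((w z (j + 1) - w z j - 1) + 1) = w z (j + 1)
      have h5 : w z j < w z (j + 1) := hw z (Nat.lt_succ_self j)
      omega
  have ht : Function.Injective t := by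
    intro z z' h
    funext j
    have h1 : w z j = w z' j := by rw [← hps, ← hps, h]
    have h2 := he.injective h1
    have h3 : (z j).toNat = (z' j).toNat := by omega
    cases h5 : z j <;> cases h6 : z' j <;> rw [h5, h6] at h3 <;> simp at h3
  have hmem : ∀ z, t z ∈ {t : BB | BS t ⊆ B₀} := by
    rintro z _ ⟨j, rfl⟩
    rw [hps]
    exact heB _
  have h1 : (t ⁻¹' {t : BB | BS t ⊆ B₀}).Countable := hcount.preimage_of_injOn ht.injOn
  have h2 : t ⁻¹' {t : BB | BS t ⊆ B₀} = Set.univ := eq_univ_of_forall hmem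
  rw [h2, Set.countable_univ_iff] at h1
  have h3 : #(ℕ → Bool) ≤ ℵ₀ := mk_le_aleph0
  have h4 : #(ℕ → Bool) = 𝔠 := by
    rw [← power_def, mk_bool, mk_nat, two_power_aleph0]
  rw [h4] at h3
  exact absurd aleph0_lt_continuum (not_lt.2 h3)

lemma mk_PI_le (h : Cardinal.aleph Ordinal.omega0 ≤ (𝔠 : Cardinal.{0})) : #PI ≤ 𝔠 := by
  rw [mk_pi]
  calc Cardinal.prod (fun n => #(I n)) ≤ Cardinal.prod (fun _ : ℕ => (𝔠 : Cardinal.{0})) := by
        apply Cardinal.prod_le_prod
        intro n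
        rw [mk_I]
        refine le_trans (aleph_le_aleph.2 ?_) h
        exact_mod_cast (Ordinal.natCast_lt_omega0 (n + 1)).le
    _ = 𝔠 := by
        rw [prod_const', mk_nat, continuum_power_aleph0]

/-- If `ℵ_ω ≤ 2^ω`, there is a Hausdorff space with a coarser separable metrizable topology that
is not Lindelöf and has discretely Lindelöf co-diagonal. -/
theorem exists_t2_example (h : Cardinal.aleph Ordinal.omega0 ≤ (𝔠 : Cardinal.{0})) :
    ∃ (X : Type) (_ : TopologicalSpace X), T2Space X ∧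
      (∃ g : X → ℕ → ℕ, Continuous g ∧ Function.Injective g) ∧
      DiscretelyLindelof {z : X × X // z.1 ≠ z.2} ∧ ¬ LindelofSpace X := by
  obtain ⟨Λ, _, _, f, hf, hg, hΛ, hcard⟩ := exists_scale
  have hne : Nonempty Λ := by
    obtain ⟨ξ, -⟩ := hg (fun n => Classical.arbitrary _)
    exact ⟨ξ⟩
  have hA : #(Λ × ℕ) ≤ 𝔠 := by
    rw [mk_prod]
    simp only [Cardinal.lift_id]
    exact mul_le_of_le aleph0_le_continuum (hcard.trans (mk_PI_le h))
      (mk_le_aleph0.trans aleph0_le_continuum)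
  obtain ⟨φ, hφ⟩ := exists_assign hA
  have hT2 : ∀ (ξ ξ' : Λ) (a b : ℕ) (G : Set (BB × BB)), IsOpen G →
      (∀ p q, p ≠ q → (φ p).1 = ξ → (φ p).2 = a → (φ q).1 = ξ' → (φ q).2 = b → (p, q) ∈ G) →
      ∃ C : Set BB, C.Countable ∧ ∀ p q, p ≠ q → (p, q) ∉ G → p ∈ C ∨ q ∈ C := by
    intro ξ ξ' a b G hG hall
    by_contra hcon
    obtain ⟨p, q, hpq, hmem, hp, hq⟩ := hφ (ξ, a) (ξ', b) Gᶜ hG.isClosed_compl hcon
    exact hmem (hall p q hpq (by rw [hp]) (by rw [hp]) (by rw [hq]) (by rw [hq]))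
  have hT1 := hT1_of_hT2 (ρ := fun t => (φ t).1) (k := fun t => (φ t).2) hT2
  refine ⟨Sp (fun t => (φ t).1) (xv f BS (fun t => (φ t).1) (fun t => (φ t).2)), inferInstance,
    t2_sp, ⟨Sp.pt, continuous_pt, fun _ _ h => Sp.ext' h⟩, ?_, ?_⟩
  · exact discretelyLindelof_coDiag hΛ hf BS_nhds hT1 hT2
  · refine not_lindelofSpace hg BS_infinite fun ξ B₀ hB₀ => ?_
    by_contra hcon
    push Not at hcon
    have hopen : IsOpen {t : BB | BS t ⊆ B₀}ᶜ := by
      rw [isOpen_iff_mem_nhds]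
      intro t ht
      obtain ⟨n, hn, hnB⟩ := not_subset.1 ht
      filter_upwards [BS_nhds t n] with q hq hqB
      exact hnB (hqB (hq.2 hn))
    have h1 := hT1 ξ 0 (fun _ => 0) {t : BB | BS t ⊆ B₀}ᶜ hopen
      (fun q _ hqξ _ => hcon q hqξ)
    rw [compl_compl] at h1
    exact not_countable_BS hB₀ h1

end Pool.Agent.Lib.MP_7165d8_gt
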