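import Mathlib
import Pool.Agent.Lib.MP_7165d8_gt.Defs
import Pool.Agent.Lib.MP_7165d8_gt.Scale
import Pool.Agent.Lib.MP_7165d8_gt.Abstract
import Pool.Agent.Lib.MP_7165d8_gt.Lindelof
import Pool.Agent.Lib.MP_7165d8_gt.Main

/-!
The `T_1` label space.
-/

open Cardinal Ordinal Set Filter Topology

namespace Pool.Agent.Lib.MP_7165d8_gt

/-- The label space: a rank, a number, an infinite set of natural numbers and a tag. -/
structure TT (Λ : Type) : Type where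
  /-- rank -/
  r : Λ
  /-- shift -/
  a : ℕ
  /-- infinite set -/
  b : {B : Set ℕ // B.Infinite}
  /-- tag -/
  j : ℕ

variable {Λ : Type}

/-- Agreement of the infinite sets below `n`. -/
def agree (n : ℕ) (p q : TT Λ) : Prop := ∀ i < n, (i ∈ q.b.1 ↔ i ∈ p.b.1)

lemma agree_refl (n : ℕ) (p : TT Λ) : agree n p p := fun _ _ => Iff.rfl

lemma agree.trans' {n : ℕ} {p q r : TT Λ} (h : agree n p q) (h' : agree n q r) : agree n p r :=
  fun i hi => (h' i hi).trans (h i hi)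

lemma agree.mono' {n m : ℕ} (hnm : n ≤ m) {p q : TT Λ} (h : agree m p q) : agree n p q :=
  fun i hi => h i (hi.trans_le hnm)

instance : TopologicalSpace (TT Λ) where
  IsOpen U := ∀ p ∈ U, ∃ n : ℕ, ∃ F : Set (TT Λ), F.Finite ∧ ∀ q, q ∉ F → agree n p q → q ∈ U
  isOpen_univ := fun _ _ => ⟨0, ∅, finite_empty, fun _ _ _ => mem_univ _⟩
  isOpen_inter := by
    intro U V hU hV p hp
    obtain ⟨n, F, hF, h⟩ := hU p hp.1
    obtain ⟨n', F', hF', h'⟩ := hV p hp.2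
    refine ⟨max n n', F ∪ F', hF.union hF', fun q hq ha => ?_⟩
    exact ⟨h q (fun h1 => hq (Or.inl h1)) (ha.mono' (le_max_left _ _)),
      h' q (fun h1 => hq (Or.inr h1)) (ha.mono' (le_max_right _ _))⟩
  isOpen_sUnion := by
    intro S hS p hp
    obtain ⟨U, hU, hpU⟩ := hp
    obtain ⟨n, F, hF, h⟩ := hS U hU p hpU
    exact ⟨n, F, hF, fun q h1 h2 => ⟨U, hU, h q h1 h2⟩⟩

lemma TT.isOpen_iff' {U : Set (TT Λ)} : IsOpen U ↔ ∀ p ∈ U, ∃ n : ℕ, ∃ F : Set (TT Λ),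
    F.Finite ∧ ∀ q, q ∉ F → agree n p q → q ∈ U := Iff.rfl

instance : T1Space (TT Λ) := by
  constructor
  intro p
  rw [← isOpen_compl_iff, TT.isOpen_iff']
  intro q _
  exact ⟨0, {p}, finite_singleton p, fun q' h _ => h⟩

lemma TT.nhds_iff {p : TT Λ} {U : Set (TT Λ)} (hU : U ∈ 𝓝 p) :
    ∃ n : ℕ, ∃ F : Set (TT Λ), F.Finite ∧ ∀ q, q ∉ F → agree n p q → q ∈ U := by
  obtain ⟨V, hVU, hV, hpV⟩ := mem_nhds_iff.1 hU
  obtain ⟨n, F, hF, h⟩ := TT.isOpen_iff'.1 hV p hpV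
  exact ⟨n, F, hF, fun q h1 h2 => hVU (h q h1 h2)⟩

lemma TT.agree_nhds (t : TT Λ) (i : ℕ) : ∀ᶠ q in 𝓝 t, (i ∈ q.b.1 ↔ i ∈ t.b.1) := by
  have h1 : IsOpen {q : TT Λ | (i ∈ q.b.1 ↔ i ∈ t.b.1)} := by
    rw [TT.isOpen_iff']
    intro p hp
    refine ⟨i + 1, ∅, finite_empty, fun q _ hq => ?_⟩
    exact (hq i (Nat.lt_succ_self i)).trans hp
  exact h1.mem_nhds Iff.rfl

open Classical in
/-- The trace of a set below `n`. -/
noncomputable def patt (β : Set ℕ) (n : ℕ) : Finset ℕ := (Finset.range n).filter (· ∈ β)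

lemma agree_of_patt {n : ℕ} {p q : TT Λ} (h : patt p.b.1 n = patt q.b.1 n) : agree n p q := by
  intro i hi
  have := Finset.ext_iff.1 h i
  simp only [patt, Finset.mem_filter, Finset.mem_range, hi, true_and] at this
  exact this.symm

/-- Choose one element for each value of a map to a countable type. -/
lemma exists_reps {X Y : Type} [Countable Y] (S : Set X) (g : X → Y) :
    ∃ R : Set X, R.Countable ∧ R ⊆ S ∧ ∀ s ∈ S, ∃ r ∈ R, g r = g s := by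
  classical
  have h1 : ∀ y : g '' S, ∃ x ∈ S, g x = y := fun y => y.2
  choose e he hge using h1
  refine ⟨range e, countable_range e, ?_, ?_⟩
  · rintro _ ⟨y, rfl⟩
    exact he y
  · intro s hs
    exact ⟨e ⟨g s, mem_image_of_mem g hs⟩, ⟨_, rfl⟩, hge _⟩

instance : HereditarilyLindelofSpace (TT Λ) := by
  constructor
  intro S _
  apply isLindelof_of_cover_mod
  intro ι U hU hcov
  have hex : ∀ z ∈ S, ∃ i, ∃ n : ℕ, ∃ F : Set (TT Λ), F.Finite ∧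
      ∀ q, q ∉ F → agree n z q → q ∈ U i := by
    intro z hz
    obtain ⟨i, hi⟩ := mem_iUnion.1 (hcov hz)
    obtain ⟨n, F, hF, h⟩ := TT.isOpen_iff'.1 (hU i) z hi
    exact ⟨i, n, F, hF, h⟩
  rcases S.eq_empty_or_nonempty with rfl | ⟨z₀, hz₀⟩
  · exact ⟨∅, countable_empty, ∅, isLindelof_empty, empty_subset _, empty_subset _⟩
  have : Nonempty ι := ⟨(hex z₀ hz₀).choose⟩
  choose! i n F hF hU' using hex
  obtain ⟨R, hRc, hRS, hR⟩ := exists_reps S (fun z : TT Λ => (n z, patt z.b.1 (n z)))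
  refine ⟨i '' R, hRc.image _, S ∩ ⋃ z ∈ R, F z, ?_, inter_subset_left, ?_⟩
  · apply Set.Countable.isLindelof
    exact (hRc.biUnion fun z hz => (hF z (hRS hz)).countable).mono inter_subset_right
  · intro q hq
    obtain ⟨z, hz, hzq⟩ := hR q hq
    have h1 : n z = n q := congrArg Prod.fst hzq
    have h2 : patt z.b.1 (n z) = patt q.b.1 (n q) := congrArg Prod.snd hzq
    rw [← h1] at h2
    by_cases hqF : q ∈ F z
    · exact Or.inr ⟨hq, mem_iUnion₂.2 ⟨z, hz, hqF⟩⟩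
    · exact Or.inl (mem_iUnion₂.2 ⟨i z, mem_image_of_mem i hz,
        hU' z (hRS hz) q hqF (agree_of_patt h2)⟩)

lemma TT.box {W : Set (TT Λ × TT Λ)} (hW : IsOpen W) {p q : TT Λ} (hpq : (p, q) ∈ W) :
    ∃ n : ℕ, ∃ F : Set (TT Λ), F.Finite ∧ ∀ p' q', p' ∉ F → q' ∉ F → agree n p p' →
      agree n q q' → (p', q') ∈ W := by
  obtain ⟨U, V, hU, hV, hp, hq, hUV⟩ := isOpen_prod_iff.1 hW p q hpq
  obtain ⟨n, F, hF, h⟩ := TT.isOpen_iff'.1 hU p hp
  obtain ⟨n', F', hF', h'⟩ := TT.isOpen_iff'.1 hV q hq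
  refine ⟨max n n', F ∪ F', hF.union hF', fun p' q' h1 h2 h3 h4 => ?_⟩
  exact hUV ⟨h p' (fun h5 => h1 (Or.inl h5)) (h3.mono' (le_max_left _ _)),
    h' q' (fun h5 => h2 (Or.inr h5)) (h4.mono' (le_max_right _ _))⟩

instance : HereditarilyLindelofSpace (TT Λ × TT Λ) := by
  constructor
  intro S _
  apply isLindelof_of_cover_mod
  intro ι U hU hcov
  have hex : ∀ z ∈ S, ∃ i, ∃ n : ℕ, ∃ F : Set (TT Λ), F.Finite ∧
      ∀ p' q', p' ∉ F → q' ∉ F → agree n z.1 p' → agree n z.2 q' → (p', q') ∈ U i := by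
    intro z hz
    obtain ⟨i, hi⟩ := mem_iUnion.1 (hcov hz)
    obtain ⟨n, F, hF, h⟩ := TT.box (hU i) (p := z.1) (q := z.2) hi
    exact ⟨i, n, F, hF, h⟩
  rcases S.eq_empty_or_nonempty with rfl | ⟨z₀, hz₀⟩
  · exact ⟨∅, countable_empty, ∅, isLindelof_empty, empty_subset _, empty_subset _⟩
  have : Nonempty ι := ⟨(hex z₀ hz₀).choose⟩
  choose! i n F hF hU' using hex
  obtain ⟨R, hRc, hRS, hR⟩ := exists_reps S
    (fun z : TT Λ × TT Λ => (n z, patt z.1.b.1 (n z), patt z.2.b.1 (n z)))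
  let N : Set (TT Λ) := ⋃ z ∈ R, F z
  have hN : N.Countable := hRc.biUnion fun z hz => (hF z (hRS hz)).countable
  refine ⟨i '' R, hRc.image _,
    (⋃ c ∈ N, (fun q => (c, q)) '' {q | (c, q) ∈ S}) ∪
      (⋃ c ∈ N, (fun q => (q, c)) '' {q | (q, c) ∈ S}), ?_, ?_, ?_⟩
  · apply IsLindelof.union
    · exact hN.isLindelof_biUnion fun c _ =>
        (HereditarilyLindelofSpace.isLindelof _).image (by fun_prop)
    · exact hN.isLindelof_biUnion fun c _ =>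
        (HereditarilyLindelofSpace.isLindelof _).image (by fun_prop)
  · rintro z (hz | hz)
    · obtain ⟨c, _, q, hq, rfl⟩ := mem_iUnion₂.1 hz
      exact hq
    · obtain ⟨c, _, q, hq, rfl⟩ := mem_iUnion₂.1 hz
      exact hq
  · intro q hq
    obtain ⟨z, hz, hzq⟩ := hR q hq
    have h1 : n z = n q := congrArg Prod.fst hzq
    have h2 : patt z.1.b.1 (n z) = patt q.1.b.1 (n q) := congrArg (fun a => a.2.1) hzq
    have h3 : patt z.2.b.1 (n z) = patt q.2.b.1 (n q) := congrArg (fun a => a.2.2) hzq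
    rw [← h1] at h2 h3
    by_cases hq1 : q.1 ∈ F z
    · exact Or.inr (Or.inl (mem_iUnion₂.2 ⟨q.1, mem_iUnion₂.2 ⟨z, hz, hq1⟩, q.2, hq, rfl⟩))
    by_cases hq2 : q.2 ∈ F z
    · exact Or.inr (Or.inr (mem_iUnion₂.2 ⟨q.2, mem_iUnion₂.2 ⟨z, hz, hq2⟩, q.1, hq, rfl⟩))
    exact Or.inl (mem_iUnion₂.2 ⟨i z, mem_image_of_mem i hz,
      hU' z (hRS hz) q.1 q.2 hq1 hq2 (agree_of_patt h2) (agree_of_patt h3)⟩)

lemma TT.hT2 (ξ ξ' : Λ) (a b : ℕ) (G : Set (TT Λ × TT Λ)) (hG : IsOpen G)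
    (h : ∀ p q : TT Λ, p ≠ q → p.r = ξ → p.a = a → q.r = ξ' → q.a = b → (p, q) ∈ G) :
    ∃ C : Set (TT Λ), C.Countable ∧ ∀ p q, p ≠ q → (p, q) ∉ G → p ∈ C ∨ q ∈ C := by
  have hex : ∀ β : {B : Set ℕ // B.Infinite} × {B : Set ℕ // B.Infinite}, ∃ n : ℕ,
      ∃ F : Set (TT Λ), F.Finite ∧ ∀ p' q', p' ∉ F → q' ∉ F → agree n ⟨ξ, a, β.1, 0⟩ p' →
        agree n ⟨ξ', b, β.2, 1⟩ q' → (p', q') ∈ G := by
    intro β
    apply TT.box hG
    refine h _ _ (fun h1 => ?_) rfl rfl rfl rfl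
    have := congrArg TT.j h1
    simp at this
  choose n F hF hU' using hex
  obtain ⟨R, hRc, -, hR⟩ := exists_reps (univ : Set ({B : Set ℕ // B.Infinite} ×
    {B : Set ℕ // B.Infinite})) (fun z => (n z, patt z.1.1 (n z), patt z.2.1 (n z)))
  refine ⟨⋃ z ∈ R, F z, hRc.biUnion fun z _ => (hF z).countable, fun p q _ hpq => ?_⟩
  by_contra hcon
  push Not at hcon
  obtain ⟨z, hz, hzq⟩ := hR (p.b, q.b) (mem_univ _)
  have h1 : n z = n (p.b, q.b) := congrArg Prod.fst hzq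
  have h2 : patt z.1.1 (n z) = patt p.b.1 (n (p.b, q.b)) := congrArg (fun a => a.2.1) hzq
  have h3 : patt z.2.1 (n z) = patt q.b.1 (n (p.b, q.b)) := congrArg (fun a => a.2.2) hzq
  rw [← h1] at h2 h3
  apply hpq
  refine hU' z p q (fun h4 => hcon.1 (mem_iUnion₂.2 ⟨z, hz, h4⟩))
    (fun h4 => hcon.2 (mem_iUnion₂.2 ⟨z, hz, h4⟩)) ?_ ?_
  · exact agree_of_patt h2
  · exact agree_of_patt h3

/-- There is a `T_1` space that is not Lindelöf, with discretely Lindelöf co-diagonal. -/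
theorem exists_t1_example : ∃ (X : Type) (_ : TopologicalSpace X), T1Space X ∧
    DiscretelyLindelof {z : X × X // z.1 ≠ z.2} ∧ ¬ LindelofSpace X := by
  obtain ⟨Λ, _, _, f, hf, hg, hΛ, -⟩ := exists_scale
  refine ⟨Sp (T := TT Λ) (fun t => t.r) (xv f (fun t => t.b.1) (fun t => t.r) (fun t => t.a)),
    inferInstance, t1_sp, ?_, ?_⟩
  · have hT2 := TT.hT2 (Λ := Λ)
    exact discretelyLindelof_coDiag hΛ hf TT.agree_nhds (hT1_of_hT2 hT2) hT2
  · refine not_lindelofSpace hg (fun t => t.b.2) fun ξ B₀ hB₀ => ?_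
    exact ⟨⟨ξ, 0, ⟨B₀, hB₀⟩, 0⟩, rfl, subset_rfl⟩

end Pool.Agent.Lib.MP_7165d8_gt
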